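import Pool.Agent.H6.CM.Base

/-!
# Half-spaces of median graphs as sets, gates, skewered half-spaces
-/

set_option autoImplicit false

namespace Pool.Agent.H6.CM

open Set
open scoped Pointwise

variable {V : Type*} {Γ : SimpleGraph V} {G : Type*} [Group G] [MulAction G V] {B : Set V}

/-- The vertices closer to `a` than to `b`. -/
def side (Γ : SimpleGraph V) (a b : V) : Set V := {v | Γ.dist v a < Γ.dist v b}

/-- Half-spaces. -/
def Half (Γ : SimpleGraph V) (A : Set V) : Prop := ∃ a b, Γ.Adj a b ∧ A = side Γ a b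

/-- Convex sets of vertices. -/
def Cv (Γ : SimpleGraph V) (F : Set V) : Prop :=
  ∀ x ∈ F, ∀ y ∈ F, ∀ m, Γ.dist x m + Γ.dist m y = Γ.dist x y → m ∈ F

theorem side_compl (h : IsMedian Γ) {a b : V} (ab : Γ.Adj a b) : side Γ b a = (side Γ a b)ᶜ := by
  ext x
  have := bip h ab x
  simp only [side, Set.mem_ofPred_eq, mem_compl_iff]
  omega

theorem left_mem {a b : V} (ab : Γ.Adj a b) : a ∈ side Γ a b := by
  show Γ.dist a a < Γ.dist a b
  rw [SimpleGraph.dist_self, d1 ab]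
  norm_num

theorem right_nmem {a b : V} (ab : Γ.Adj a b) : b ∉ side Γ a b := by
  show ¬ Γ.dist b a < Γ.dist b b
  rw [SimpleGraph.dist_self]
  omega

theorem side_cv (h : IsMedian Γ) {a b : V} (ab : Γ.Adj a b) : Cv Γ (side Γ a b) :=
  fun x hx y hy m hm => hs_convex h ab.symm x y m hx hy hm

theorem Half.compl (h : IsMedian Γ) {A : Set V} (hA : Half Γ A) : Half Γ Aᶜ := by
  obtain ⟨a, b, ab, rfl⟩ := hA
  exact ⟨b, a, ab.symm, (side_compl h ab).symm⟩

theorem Half.cv (h : IsMedian Γ) {A : Set V} (hA : Half Γ A) : Cv Γ A := by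
  obtain ⟨a, b, ab, rfl⟩ := hA
  exact side_cv h ab

theorem Half.nonempty {A : Set V} (hA : Half Γ A) : ∃ v, v ∈ A := by
  obtain ⟨a, b, ab, rfl⟩ := hA
  exact ⟨a, left_mem ab⟩

theorem Half.cononempty {A : Set V} (hA : Half Γ A) : ∃ v, v ∉ A := by
  obtain ⟨a, b, ab, rfl⟩ := hA
  exact ⟨b, right_nmem ab⟩

theorem smul_side (hG : Geo Γ G B) (g : G) (a b : V) :
    g • side Γ a b = side Γ (g • a) (g • b) := by
  ext v
  rw [Set.mem_smul_set_iff_inv_smul_mem]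
  show Γ.dist (g⁻¹ • v) a < Γ.dist (g⁻¹ • v) b ↔ Γ.dist v (g • a) < Γ.dist v (g • b)
  rw [← hG.dist g (g⁻¹ • v) a, ← hG.dist g (g⁻¹ • v) b, smul_inv_smul]

theorem Half.smul (hG : Geo Γ G B) (g : G) {A : Set V} (hA : Half Γ A) : Half Γ (g • A) := by
  obtain ⟨a, b, ab, rfl⟩ := hA
  exact ⟨g • a, g • b, hG.adj g _ _ ab, smul_side hG g a b⟩

/-- A half-space is determined by any edge crossing its boundary. -/
theorem half_edge (h : IsMedian Γ) {A : Set V} (hA : Half Γ A) {x y : V} (xy : Γ.Adj x y)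
    (hx : x ∈ A) (hy : y ∉ A) : A = side Γ x y := by
  obtain ⟨a, b, ab, rfl⟩ := hA
  ext w
  have hy' : Γ.dist y b < Γ.dist y a := by
    have h1 := bip h ab y
    have h2 : ¬ Γ.dist y a < Γ.dist y b := hy
    omega
  exact (hs_edge h ab.symm _ x y xy rfl hx hy' w).symm

/-- Only finitely many half-spaces separate two vertices. -/
theorem sep_fin (h : IsMedian Γ) (x y : V) : {A | Half Γ A ∧ x ∈ A ∧ y ∉ A}.Finite := by
  obtain ⟨p⟩ := h.1.preconnected x y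
  induction p with
  | nil =>
    refine Set.finite_empty.subset ?_
    rintro A ⟨-, h1, h2⟩
    exact h2 h1
  | @cons x u y hadj q ih =>
    refine (ih.union (Set.finite_singleton (side Γ x u))).subset ?_
    rintro A ⟨h1, h2, h3⟩
    by_cases hu : u ∈ A
    · exact Or.inl ⟨h1, hu, h3⟩
    · exact Or.inr (half_edge h h1 hadj h2 hu)

theorem exists_edge (h : IsMedian Γ) {F A : Set V} (hF : Cv Γ F) {x y : V} (hx : x ∈ F)
    (hxA : x ∈ A) (hy : y ∈ F) (hyA : y ∉ A) :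
    ∃ u ∈ F, ∃ v ∈ F, Γ.Adj u v ∧ u ∈ A ∧ v ∉ A := by
  obtain ⟨k, hk⟩ : ∃ k, Γ.dist x y = k := ⟨_, rfl⟩
  induction k generalizing x with
  | zero =>
    rw [h.1.dist_eq_zero_iff] at hk
    exact absurd (hk ▸ hxA) hyA
  | succ k ih =>
    obtain ⟨x1, h1, h2⟩ := exists_nb h hk
    have h3 : x1 ∈ F := hF x hx y hy x1 (by rw [d1 h1]; omega)
    by_cases h4 : x1 ∈ A
    · exact ih h3 h4 h2
    · exact ⟨x, hx, x1, h3, h1, hxA, h4⟩

/-- `p` is the gate of `x` in `F`. -/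
def IsGate (Γ : SimpleGraph V) (F : Set V) (x p : V) : Prop :=
  p ∈ F ∧ ∀ y ∈ F, Γ.dist x p + Γ.dist p y = Γ.dist x y

theorem gate_of_min (h : IsMedian Γ) {F : Set V} (hF : Cv Γ F) {x p : V} (hp : p ∈ F)
    (hmin : ∀ y ∈ F, Γ.dist x p ≤ Γ.dist x y) : IsGate Γ F x p := by
  refine ⟨hp, fun y hy => ?_⟩
  obtain ⟨m, ⟨h1, h2, h3⟩, -⟩ := h.2 x p y
  have hm : m ∈ F := hF p hp y hy m h2
  have h4 := hmin m hm
  have h5 : m = p := h.1.dist_eq_zero_iff.1 (by omega)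
  rw [h5] at h3
  exact h3

theorem exists_gate (h : IsMedian Γ) {F : Set V} (hF : Cv Γ F) (hne : F.Nonempty) (x : V) :
    ∃ p, IsGate Γ F x p := by
  classical
  have hex : ∃ k, ∃ p ∈ F, Γ.dist x p = k := by
    obtain ⟨p, hp⟩ := hne
    exact ⟨_, p, hp, rfl⟩
  obtain ⟨p, hp, hk⟩ := Nat.find_spec hex
  refine ⟨p, gate_of_min h hF hp fun y hy => ?_⟩
  rw [hk]
  exact Nat.find_min' hex ⟨y, hy, rfl⟩

theorem gate_side (h : IsMedian Γ) {F A : Set V} (hA : Half Γ A) {x p : V} (hp : IsGate Γ F x p)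
    (h1 : ∃ y ∈ F, y ∈ A) (h2 : ∃ y ∈ F, y ∉ A) : x ∈ A ↔ p ∈ A := by
  obtain ⟨y, hy, hyA⟩ := h1
  obtain ⟨z, hz, hzA⟩ := h2
  constructor
  · intro hx
    exact hA.cv h x hx y hyA p (hp.2 y hy)
  · intro hpA
    by_contra hx
    exact (hA.compl h).cv h x hx z hzA p (hp.2 z hz) hpA

theorem gate_lip (h : IsMedian Γ) {F : Set V} {x y p q : V} (hp : IsGate Γ F x p)
    (hq : IsGate Γ F y q) : Γ.dist p q ≤ Γ.dist x y := by
  have h1 := hp.2 q hq.1
  have h2 := hq.2 p hp.1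
  have h3 := h.1.dist_triangle (u := x) (v := y) (w := q)
  have h4 := h.1.dist_triangle (u := y) (v := x) (w := p)
  have e1 : Γ.dist q p = Γ.dist p q := SimpleGraph.dist_comm
  have e2 : Γ.dist y x = Γ.dist x y := SimpleGraph.dist_comm
  omega

theorem gate_smul (hG : Geo Γ G B) (g : G) {F : Set V} {x p : V} (hp : IsGate Γ F x p) :
    IsGate Γ (g • F) (g • x) (g • p) := by
  refine ⟨Set.smul_mem_smul_set hp.1, ?_⟩
  intro y hy
  rw [Set.mem_smul_set] at hy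
  obtain ⟨z, hz, rfl⟩ := hy
  rw [hG.dist, hG.dist, hG.dist]
  exact hp.2 z hz

theorem Cv.smul (hG : Geo Γ G B) (g : G) {F : Set V} (hF : Cv Γ F) : Cv Γ (g • F) := by
  intro x hx y hy m hm
  rw [Set.mem_smul_set_iff_inv_smul_mem] at hx hy ⊢
  refine hF _ hx _ hy _ ?_
  rw [hG.dist, hG.dist, hG.dist]
  exact hm

theorem Cv.inter {F F' : Set V} (hF : Cv Γ F) (hF' : Cv Γ F') : Cv Γ (F ∩ F') :=
  fun x hx y hy m hm => ⟨hF x hx.1 y hy.1 m hm, hF' x hx.2 y hy.2 m hm⟩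

/-- Helly's theorem for three convex sets. -/
theorem helly_sets (h : IsMedian Γ) {A B C : Set V} (hA : Cv Γ A) (hB : Cv Γ B) (hC : Cv Γ C)
    (hAB : (A ∩ B).Nonempty) (hBC : (B ∩ C).Nonempty) (hAC : (A ∩ C).Nonempty) :
    ∃ v, v ∈ A ∧ v ∈ B ∧ v ∈ C := by
  obtain ⟨a, a1, a2⟩ := hAB
  obtain ⟨b, b1, b2⟩ := hBC
  obtain ⟨c, c1, c2⟩ := hAC
  obtain ⟨m, ⟨m1, m2, m3⟩, -⟩ := h.2 a b c
  exact ⟨m, hA a a1 c c1 m m3, hB a a2 b b1 m m1, hC b b2 c c2 m m2⟩

/-- The closest vertices of two convex sets are separated by exactly the half-spaces which separate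
the two sets. -/
theorem exists_bridge (h : IsMedian Γ) {F F' : Set V} (hF : Cv Γ F) (hF' : Cv Γ F')
    (hne : F.Nonempty) (hne' : F'.Nonempty) : ∃ x ∈ F, ∃ y ∈ F',
      (∀ u ∈ F, ∀ v ∈ F', Γ.dist x y ≤ Γ.dist u v) ∧
      ∀ A, Half Γ A → x ∉ A → y ∈ A → (∀ z ∈ F, z ∉ A) ∧ ∀ z ∈ F', z ∈ A := by
  classical
  have hex : ∃ k, ∃ x ∈ F, ∃ y ∈ F', Γ.dist x y = k := by
    obtain ⟨p, hp⟩ := hne
    obtain ⟨q, hq⟩ := hne'
    exact ⟨_, p, hp, q, hq, rfl⟩
  obtain ⟨x, hx, y, hy, hk⟩ := Nat.find_spec hex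
  have hmin : ∀ u ∈ F, ∀ v ∈ F', Γ.dist x y ≤ Γ.dist u v := fun u hu v hv => by
    rw [hk]
    exact Nat.find_min' hex ⟨u, hu, v, hv, rfl⟩
  have g1 : IsGate Γ F' x y := gate_of_min h hF' hy fun z hz => hmin x hx z hz
  have g2 : IsGate Γ F y x := gate_of_min h hF hx fun z hz => by
    have := hmin z hz y hy
    have e1 : Γ.dist y x = Γ.dist x y := SimpleGraph.dist_comm
    have e2 : Γ.dist y z = Γ.dist z y := SimpleGraph.dist_comm
    omega
  refine ⟨x, hx, y, hy, hmin, fun A hA hxA hyA => ⟨fun z hz hzA => ?_, fun z hz => ?_⟩⟩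
  · exact hxA (hA.cv h y hyA z hzA x (g2.2 z hz))
  · by_contra hzA
    exact (hA.compl h).cv h x hxA z hzA y (g1.2 z hz) hyA

theorem smul_ssubset {g : G} {A C : Set V} (h : A ⊂ C) : g • A ⊂ g • C := by
  constructor
  · exact Set.smul_set_mono h.1
  · intro hle
    apply h.2
    have := Set.smul_set_mono (a := g⁻¹) hle
    rwa [inv_smul_smul, inv_smul_smul] at this

theorem skew_lt {g : G} {A : Set V} (h : g • A ⊂ A) : ∀ (i : ℤ) (n : ℕ),
    g ^ (i + 1 + n) • A ⊂ g ^ i • A := by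
  intro i n
  induction n with
  | zero =>
    rw [Nat.cast_zero, add_zero, zpow_add, zpow_one, mul_smul]
    exact smul_ssubset h
  | succ n ih =>
    refine lt_trans ?_ ih
    rw [Nat.cast_succ, ← add_assoc, zpow_add _ (i + 1 + n), zpow_one, mul_smul]
    exact smul_ssubset h

theorem skew_lt' {g : G} {A : Set V} (h : g • A ⊂ A) {i j : ℤ} (hij : i < j) :
    g ^ j • A ⊂ g ^ i • A := by
  obtain ⟨n, hn⟩ := Int.eq_ofNat_of_zero_le (show 0 ≤ j - i - 1 by omega)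
  obtain rfl : j = i + 1 + n := by omega
  exact skew_lt h i n

theorem skew_le {g : G} {A : Set V} (h : g • A ⊂ A) {i j : ℤ} (hij : i ≤ j) :
    g ^ j • A ⊆ g ^ i • A := by
  rcases hij.lt_or_eq with h1 | h1
  · exact (skew_lt' h h1).1
  · rw [h1]

theorem skew_inj {g : G} {A : Set V} (h : g • A ⊂ A) {i j : ℤ} (hij : g ^ i • A = g ^ j • A) :
    i = j := by
  rcases lt_trichotomy i j with h1 | h1 | h1
  · exact absurd hij.symm (skew_lt' h h1).ne
  · exact h1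
  · exact absurd hij (skew_lt' h h1).ne

/-- The positive translates of a skewered half-space leave every vertex. -/
theorem skew_out (hG : Geo Γ G B) {g : G} {A : Set V} (hA : Half Γ A) (h : g • A ⊂ A) (v : V) :
    ∃ n : ℕ, ∀ m : ℤ, n ≤ m → v ∉ g ^ m • A := by
  by_contra hcon
  push Not at hcon
  obtain ⟨w, hw⟩ := hA.cononempty
  have h1 : ∀ m : ℕ, v ∈ g ^ (m : ℤ) • A := fun m => by
    obtain ⟨m', hm, h2⟩ := hcon m
    exact skew_le h hm h2
  have h2 : (Set.range fun m : ℕ => g ^ (m : ℤ) • A).Finite := by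
    refine (sep_fin hG.med v w).subset ?_
    rintro _ ⟨m, rfl⟩
    refine ⟨hA.smul hG _, h1 m, fun h3 => hw ?_⟩
    have := skew_le h (show (0 : ℤ) ≤ m by omega) h3
    rwa [zpow_zero, one_smul] at this
  refine Set.infinite_range_of_injective (fun i j hij => ?_) h2
  exact_mod_cast skew_inj h hij

/-- The negative translates of a skewered half-space contain every vertex. -/
theorem skew_in (hG : Geo Γ G B) {g : G} {A : Set V} (hA : Half Γ A) (h : g • A ⊂ A) (v : V) :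
    ∃ n : ℕ, ∀ m : ℤ, n ≤ m → v ∈ g ^ (-m) • A := by
  by_contra hcon
  push Not at hcon
  obtain ⟨w, hw⟩ := hA.nonempty
  have h1 : ∀ m : ℕ, v ∉ g ^ (-m : ℤ) • A := fun m h2 => by
    obtain ⟨m', hm, h3⟩ := hcon m
    exact h3 (skew_le h (show -m' ≤ -(m : ℤ) by omega) h2)
  have h2 : (Set.range fun m : ℕ => g ^ (-m : ℤ) • A).Finite := by
    refine (sep_fin hG.med w v).subset ?_
    rintro _ ⟨m, rfl⟩
    refine ⟨hA.smul hG _, ?_, h1 m⟩
    refine skew_le h (show -(m : ℤ) ≤ 0 by omega) ?_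
    rwa [zpow_zero, one_smul]
  refine Set.infinite_range_of_injective (fun i j hij => ?_) h2
  have := skew_inj h hij
  omega

end Pool.Agent.H6.CM
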