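import Pool.Agent.H6.CM.Comm

/-!
# Without `ℤ²` the coarse stabiliser is a finite extension; commensurators
-/

set_option autoImplicit false

namespace Pool.Agent.H6.CM

open Set
open scoped Pointwise

variable {V : Type*} {Γ : SimpleGraph V} {G : Type*} [Group G] [MulAction G V] {B : Set V}
variable {K : Subgroup G} {F : Set V}

/-- The elements of the coarse stabiliser which move `x0` in directions away from `F` only. -/
def fib (hG : Geo Γ G B) (F : Set V) (x0 : V) : Subgroup G where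
  carrier := {g | g ∈ cst hG F ∧ ∀ A, HH hG F A → (g • x0 ∈ A ↔ x0 ∈ A)}
  one_mem' := ⟨Subgroup.one_mem _, fun A _ => by rw [one_smul]⟩
  mul_mem' := fun {g h} hg hh => ⟨Subgroup.mul_mem _ hg.1 hh.1, fun A hA => by
    have h1 := hh.2 (g⁻¹ • A) (hA.smul hG (Subgroup.inv_mem _ hg.1))
    rw [Set.mem_inv_smul_set_iff, Set.mem_inv_smul_set_iff] at h1
    rw [mul_smul, h1, hg.2 A hA]⟩
  inv_mem' := fun {g} hg => ⟨Subgroup.inv_mem _ hg.1, fun A hA => by
    have h1 := hg.2 (g • A) (hA.smul hG hg.1)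
    rw [Set.smul_mem_smul_set_iff] at h1
    rw [← Set.mem_smul_set_iff_inv_smul_mem, ← h1]⟩

/-- The fibre group meets `K` in a finite set. -/
theorem fib_fin (hG : Geo Γ G B) (hF : CC Γ K F) {x0 : V} (hx0 : x0 ∈ F) :
    {κ | κ ∈ K ∧ κ ∈ fib hG F x0}.Finite := by
  obtain ⟨D, hD⟩ := nested_pair hG
  obtain ⟨T, hT, hcross⟩ := cross_fin hG hF
  refine ((hG.ball (D * hT.toFinset.card) x0).biUnion fun y _ => hG.fin1 x0 y).subset ?_
  rintro κ ⟨hκ, hκ'⟩
  refine Set.mem_biUnion (show κ • x0 ∈ {w | Γ.dist x0 w ≤ D * hT.toFinset.card} from ?_) rfl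
  show Γ.dist x0 (κ • x0) ≤ D * hT.toFinset.card
  by_contra hcon
  obtain ⟨u, hu0, hu1, hu, hadj, h1, h2, -⟩ := geod_sides hG.med x0 (κ • x0)
  have hκx : κ • x0 ∈ F := hF.inv κ hκ x0 hx0
  have huF : ∀ i ≤ Γ.dist x0 (κ • x0), u i ∈ F := by
    intro i hi
    refine hF.cv x0 hx0 _ hκx _ ?_
    have e1 := hu 0 i (by omega) hi
    have e2 := hu i _ hi le_rfl
    rw [hu0] at e1
    rw [hu1] at e2
    omega
  obtain ⟨i, hi, k, hk, hsk⟩ := hD hT.toFinset K u (Γ.dist x0 (κ • x0)) (by omega) hu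
    (fun i hi => by
      obtain ⟨k, hk, hkT⟩ := hcross (side Γ (u (i + 1)) (u i)) ⟨_, _, (hadj i hi).symm, rfl⟩
        ⟨_, huF (i + 1) (by omega), left_mem (hadj i hi).symm⟩
        ⟨_, huF i hi.le, right_nmem (hadj i hi).symm⟩
      exact ⟨k, hk, hT.mem_toFinset.2 hkT⟩)
  have h3 := HH.of_skew hG hF ⟨x0, hx0⟩ hk ⟨_, _, (hadj i hi).symm, rfl⟩ hsk
  exact h1 i hi ((hκ'.2 _ h3).1 (h2 i hi))

/-- **The coarse stabiliser.** -/
theorem cst_fin (hG : Geo Γ G B) (hF : CC Γ K F) (hinf : F.Infinite)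
    (hZ : ¬ ∃ g ∈ cst hG F, ∃ u ∈ K, Commute g u ∧
      (∀ a b : ℤ, g ^ a * u ^ b = 1 → a = 0 ∧ b = 0) ∧ ∀ n : ℤ, g ^ n ∈ K → n = 0) :
    {X | ∃ g ∈ cst hG F, X = g • F}.Finite := by
  classical
  by_contra htr
  have htr : {X | ∃ g ∈ cst hG F, X = g • F}.Infinite := htr
  have hne := hinf.nonempty
  obtain ⟨x0, hx0⟩ := id hne
  -- finitely generated subgroups
  have hfg : ∀ S : Set G, S.Finite → S ⊆ cst hG F →
      ∃ R : Set G, R.Finite ∧ ∀ g ∈ Subgroup.closure ((K : Set G) ∪ S), ∃ s ∈ R, ∃ κ ∈ K,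
        g = s * κ := by
    intro S hS hSc
    refine index_fin hG hF hne ?_
    by_contra hcon
    exact hZ (fg_case hG hF hinf S hS hSc hcon)
  -- finitely generated subgroups of the fibre group are finite
  have hloc : ∀ S : Set G, S.Finite → S ⊆ fib hG F x0 →
      (Subgroup.closure S : Set G).Finite := by
    intro S hS hSL
    obtain ⟨R, hR, hRs⟩ := hfg S hS fun s hs => (hSL hs).1
    have hle : Subgroup.closure S ≤ fib hG F x0 := (Subgroup.closure_le _).2 hSL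
    have hle' : Subgroup.closure S ≤ Subgroup.closure ((K : Set G) ∪ S) :=
      Subgroup.closure_mono Set.subset_union_right
    have h1 : ∀ s : G, ∃ f : G, (∃ g ∈ Subgroup.closure S, ∃ κ ∈ K, g = s * κ) →
        f ∈ Subgroup.closure S ∧ ∃ κ ∈ K, f = s * κ := fun s => by
      by_cases h : ∃ g ∈ Subgroup.closure S, ∃ κ ∈ K, g = s * κ
      · obtain ⟨g, hg, h⟩ := h
        exact ⟨g, fun _ => ⟨hg, h⟩⟩
      · exact ⟨1, fun h' => absurd h' h⟩
    choose f hf using h1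
    refine (hR.biUnion fun s _ => (fib_fin hG hF hx0).image fun κ => f s * κ).subset ?_
    intro g hg
    obtain ⟨s, hs, κ, hκ, he⟩ := hRs g (hle' hg)
    obtain ⟨h2, κ', hκ', he'⟩ := hf s ⟨g, hg, κ, hκ, he⟩
    refine Set.mem_biUnion hs ⟨(f s)⁻¹ * g, ⟨?_, ?_⟩, by group⟩
    · have : (f s)⁻¹ * g = κ'⁻¹ * κ := by rw [he, he']; group
      rw [this]
      exact K.mul_mem (K.inv_mem hκ') hκ
    · exact Subgroup.mul_mem _ (Subgroup.inv_mem _ (hle h2)) (hle hg)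
  -- the fibre group is infinite
  have hLinf : (fib hG F x0 : Set G).Infinite := by
    obtain ⟨C, hC, hcov⟩ := hF.cof
    -- for every translate choose an element which carries a vertex of `C` to the gate of `x0`
    have h1 : ∀ X ∈ {X | ∃ g ∈ cst hG F, X = g • F}, ∃ g : G, g ∈ cst hG F ∧ X = g • F ∧
        ∃ c ∈ C, IsGate Γ X x0 (g • c) := by
      rintro _ ⟨g, hg, rfl⟩
      obtain ⟨p, hp⟩ := exists_gate hG.med (hF.cv.smul hG g) (hne.smul_set) x0
      obtain ⟨κ, hκ, hc⟩ := hcov _ (Set.mem_smul_set_iff_inv_smul_mem.1 hp.1)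
      refine ⟨g * κ⁻¹, Subgroup.mul_mem _ hg (Subgroup.inv_mem _ (hF.le_cst hG hκ)), ?_,
        κ • g⁻¹ • p, hc, ?_⟩
      · rw [mul_smul, hF.smul_eq (K.inv_mem hκ)]
      · rw [mul_smul, inv_smul_smul, smul_inv_smul]
        exact hp
    choose! γ hγ1 hγ2 hγ3 using h1
    have : Nonempty V := ⟨x0⟩
    choose! c hc1 hc2 using hγ3
    -- infinitely many with the same vertex
    obtain ⟨c0, -, hc0⟩ : ∃ c0 ∈ C, {X | (∃ g ∈ cst hG F, X = g • F) ∧ c X = c0}.Infinite := by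
      by_contra hcon
      push Not at hcon
      refine htr ((hC.biUnion fun c0 hc0 => hcon c0 hc0).subset ?_)
      intro X hX
      exact Set.mem_biUnion (hc1 X hX) ⟨hX, rfl⟩
    obtain ⟨X1, hX1, hX1c⟩ := hc0.nonempty
    have h2 : ((fun X => γ X * (γ X1)⁻¹) '' {X | (∃ g ∈ cst hG F, X = g • F) ∧ c X = c0}).Infinite := by
      refine hc0.image ?_
      rintro X ⟨hX, -⟩ X' ⟨hX', -⟩ he
      have he' : γ X = γ X' := mul_right_cancel he
      rw [hγ2 X hX, hγ2 X' hX', he']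
    refine h2.mono ?_
    rintro _ ⟨X, ⟨hX, hXc⟩, rfl⟩
    have hmem : γ X * (γ X1)⁻¹ ∈ cst hG F :=
      Subgroup.mul_mem _ (hγ1 X hX) (Subgroup.inv_mem _ (hγ1 X1 hX1))
    refine ⟨hmem, fun A hA => ?_⟩
    have g1 := hc2 X1 hX1
    have g2 := hc2 X hX
    rw [hX1c] at g1
    rw [hXc] at g2
    -- half-spaces in `HH` cross the translates
    have hcr : ∀ (A : Set V) (X : Set V), HH hG F A → (∃ g ∈ cst hG F, X = g • F) →
        (∃ x ∈ X, x ∈ A) ∧ ∃ x ∈ X, x ∉ A := by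
      rintro A _ hA ⟨g, hg, rfl⟩
      exact hA.2 g hg
    have hA' : HH hG F ((γ X * (γ X1)⁻¹)⁻¹ • A) := hA.smul hG (Subgroup.inv_mem _ hmem)
    have e1 := gate_side hG.med hA'.1 g1 (hcr _ _ hA' hX1).1 (hcr _ _ hA' hX1).2
    have e2 := gate_side hG.med hA.1 g2 (hcr _ _ hA hX).1 (hcr _ _ hA hX).2
    rw [Set.mem_inv_smul_set_iff, Set.mem_inv_smul_set_iff] at e1
    rw [e1, e2, mul_smul, inv_smul_smul]
  -- contradiction
  obtain ⟨E, hE, hEs⟩ := finite_subgroup hG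
  obtain ⟨S, hS, hScard⟩ := hLinf.exists_subset_card_eq (hE.toFinset.card + 1)
  have hSf := hloc S S.finite_toSet hS
  obtain ⟨γ, hγ⟩ := hEs _ hSf
  have h1 : (S.image fun a => γ * a * γ⁻¹) ⊆ hE.toFinset := by
    intro y hy
    rw [Finset.mem_image] at hy
    obtain ⟨a, ha, rfl⟩ := hy
    exact hE.mem_toFinset.2 (hγ a (Subgroup.subset_closure ha))
  have h2 := Finset.card_le_card h1
  rw [Finset.card_image_of_injective _ (fun a b h => by simpa using h)] at h2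
  omega

/-- The commensurator of `K` is contained in the coarse stabiliser of `F`. -/
theorem comm_le_cst (hG : Geo Γ G B) (hF : CC Γ K F) :
    Subgroup.Commensurable.commensurator K ≤ cst hG F := by
  -- one direction
  have key : ∀ {K1 K2 : Subgroup G} {F1 F2 : Set V}, CC Γ K1 F1 → (∀ k ∈ K2, ∀ x ∈ F2, k • x ∈ F2) →
      F2.Nonempty → K2.relIndex K1 ≠ 0 → ∃ c : ℕ, ∀ x ∈ F1, ∃ y ∈ F2, Γ.dist x y ≤ c := by
    intro K1 K2 F1 F2 h1 h2 h3 h4
    obtain ⟨y0, hy0⟩ := h3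
    obtain ⟨C, hC, hcov⟩ := h1.cof
    have : Finite (K1 ⧸ K2.subgroupOf K1) :=
      Nat.finite_of_card_ne_zero h4
    -- representatives
    have hfin : (⋃ x ∈ C, Set.range fun q : K1 ⧸ K2.subgroupOf K1 =>
        ((Quotient.out q : K1) : G)⁻¹ • x).Finite := hC.biUnion fun x _ => Set.finite_range _
    have hbdd : ∃ c : ℕ, ∀ z ∈ (⋃ x ∈ C, Set.range fun q : K1 ⧸ K2.subgroupOf K1 =>
        ((Quotient.out q : K1) : G)⁻¹ • x), Γ.dist z y0 ≤ c := by
      obtain ⟨c, hc⟩ := (hfin.image fun z => Γ.dist z y0).bddAbove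
      exact ⟨c, fun z hz => hc ⟨z, hz, rfl⟩⟩
    obtain ⟨c, hc⟩ := hbdd
    refine ⟨c, fun x hx => ?_⟩
    obtain ⟨k, hk, hkC⟩ := hcov x hx
    -- `k⁻¹ = r * κ` with `κ ∈ K2`, so `k = κ⁻¹ r⁻¹`
    obtain ⟨q, hq⟩ : ∃ q : K1 ⧸ K2.subgroupOf K1, q = QuotientGroup.mk (⟨k, hk⟩ : K1) := ⟨_, rfl⟩
    have h5 : ((Quotient.out q : K1))⁻¹ * (⟨k, hk⟩ : K1) ∈ K2.subgroupOf K1 := by
      rw [← QuotientGroup.eq, ← hq]
      exact Quotient.out_eq _
    rw [Subgroup.mem_subgroupOf] at h5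
    obtain ⟨κ, hκ⟩ : ∃ κ : G, κ = ((Quotient.out q : K1) : G)⁻¹ * k := ⟨_, rfl⟩
    have h5' : κ ∈ K2 := by rw [hκ]; exact h5
    refine ⟨κ⁻¹ • y0, h2 _ (K2.inv_mem h5') _ hy0, ?_⟩
    have h6 := hc (((Quotient.out q : K1) : G)⁻¹ • k • x) (Set.mem_biUnion hkC ⟨q, rfl⟩)
    rw [← hG.dist κ, smul_inv_smul]
    have h7 : κ • x = ((Quotient.out q : K1) : G)⁻¹ • k • x := by rw [hκ, mul_smul]
    rwa [h7]
  intro g hg
  rw [mem_cst]
  rcases F.eq_empty_or_nonempty with hFe | hne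
  · rw [hFe, Set.smul_set_empty]
    exact Close.refl _
  rw [Subgroup.Commensurable.commensurator_mem_iff] at hg
  obtain ⟨hg1, hg2⟩ := hg
  have hmem : ∀ x : G, x ∈ ConjAct.toConjAct g • K ↔ g⁻¹ * x * g ∈ K := by
    intro x
    rw [Subgroup.mem_pointwise_smul_iff_inv_smul_mem, ← ConjAct.toConjAct_inv,
      ConjAct.toConjAct_smul, inv_inv]
  have hF' : CC Γ (ConjAct.toConjAct g • K) (g • F) := by
    refine ⟨hF.cv.smul hG g, ?_, ?_⟩
    · intro x hx y hy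
      rw [hmem] at hx
      rw [Set.mem_smul_set_iff_inv_smul_mem] at hy ⊢
      have := hF.inv _ hx _ hy
      rwa [mul_smul, smul_inv_smul, mul_smul] at this
    · obtain ⟨C, hC, hcov⟩ := hF.cof
      refine ⟨g • C, hC.image _, fun x hx => ?_⟩
      rw [Set.mem_smul_set_iff_inv_smul_mem] at hx
      obtain ⟨k, hk, hkC⟩ := hcov _ hx
      refine ⟨g * k * g⁻¹, ?_, ?_⟩
      · rw [hmem]
        have : g⁻¹ * (g * k * g⁻¹) * g = k := by group
        rwa [this]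
      · rw [mul_smul, mul_smul]
        exact Set.smul_mem_smul_set hkC
  obtain ⟨c1, h1⟩ := key hF hF'.inv hne.smul_set hg1
  obtain ⟨c2, h2⟩ := key hF' hF.inv hne hg2
  refine ⟨c1 + c2, fun x hx => ?_, fun y hy => ?_⟩
  · obtain ⟨y, hy, hd⟩ := h1 x hx
    exact ⟨y, hy, by omega⟩
  · obtain ⟨x, hx, hd⟩ := h2 y hy
    exact ⟨x, hx, by rw [SimpleGraph.dist_comm]; omega⟩

/-- The coarse stabiliser of `F` is contained in the commensurator of `K`. -/
theorem cst_le_comm (hG : Geo Γ G B) (hF : CC Γ K F) (hne : F.Nonempty) :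
    cst hG F ≤ Subgroup.Commensurable.commensurator K := by
  have hmem : ∀ g x : G, x ∈ ConjAct.toConjAct g • K ↔ g⁻¹ * x * g ∈ K := by
    intro g x
    rw [Subgroup.mem_pointwise_smul_iff_inv_smul_mem, ← ConjAct.toConjAct_inv,
      ConjAct.toConjAct_smul, inv_inv]
  have key : ∀ g ∈ cst hG F, (ConjAct.toConjAct g • K).relIndex K ≠ 0 := by
    intro g hg
    obtain ⟨R, hR, hRs⟩ := dcoset hG hF hne hg
    have h1 : ((ConjAct.toConjAct g • K).subgroupOf K).FiniteIndex := by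
      refine index_fin' ⟨(fun s => s * g⁻¹) '' R, hR.image _, fun k hk => ?_⟩
      obtain ⟨s, hs, κ, hκ, he⟩ := hRs k hk
      refine ⟨s * g⁻¹, ⟨s, hs, rfl⟩, g * κ * g⁻¹, ?_, ?_⟩
      · rw [hmem]
        have : g⁻¹ * (g * κ * g⁻¹) * g = κ := by group
        rwa [this]
      · have : k = s * κ * g⁻¹ := by rw [← he, mul_inv_cancel_right]
        rw [this]
        group
    exact h1.index_ne_zero
  intro g hg
  rw [Subgroup.Commensurable.commensurator_mem_iff]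
  refine ⟨key g hg, ?_⟩
  have h1 := key g⁻¹ (Subgroup.inv_mem _ hg)
  have h2 : (ConjAct.toConjAct g⁻¹ • K).relIndex K =
      K.relIndex (ConjAct.toConjAct g • K) := by
    unfold Subgroup.relIndex
    have e := Subgroup.quotConjEquiv (ConjAct.toConjAct g⁻¹ • K) K (ConjAct.toConjAct g)
    have e2 : ConjAct.toConjAct g • ConjAct.toConjAct g⁻¹ • K = K := by
      rw [ConjAct.toConjAct_inv, smul_inv_smul]
    rw [e2] at e
    exact Nat.card_congr e
  rwa [← h2]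

/-- **Commensurators of convex cocompact subgroups.** -/
theorem main (hG : Geo Γ G B) (hF : CC Γ K F) (hne : F.Nonempty) (hK : (K : Set G).Infinite) :
    (K.subgroupOf (Subgroup.Commensurable.commensurator K)).FiniteIndex ∨
    ∃ g ∈ Subgroup.Commensurable.commensurator K, ∃ u ∈ K, Commute g u ∧
      (∀ a b : ℤ, g ^ a * u ^ b = 1 → a = 0 ∧ b = 0) ∧ ∀ n : ℤ, g ^ n ∈ K → n = 0 := by
  have hinf : F.Infinite := by
    intro hfin
    obtain ⟨x0, hx0⟩ := hne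
    refine hK ((hfin.biUnion fun y _ => hG.fin1 x0 y).subset fun k hk => ?_)
    exact Set.mem_biUnion (hF.inv k hk x0 hx0) rfl
  by_cases hZ : ∃ g ∈ cst hG F, ∃ u ∈ K, Commute g u ∧
      (∀ a b : ℤ, g ^ a * u ^ b = 1 → a = 0 ∧ b = 0) ∧ ∀ n : ℤ, g ^ n ∈ K → n = 0
  · obtain ⟨g, hg, h⟩ := hZ
    exact Or.inr ⟨g, cst_le_comm hG hF hne hg, h⟩
  · left
    refine index_fin' (index_fin hG hF hne ((cst_fin hG hF hinf hZ).subset ?_))
    rintro _ ⟨g, hg, rfl⟩
    exact ⟨g, comm_le_cst hG hF hg, rfl⟩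

end Pool.Agent.H6.CM
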