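import Mathlib

/-!
# Median graphs, geometric actions, half-spaces: basic facts

(The 1-skeleta of the CAT(0) cube complexes are exactly the median graphs, by theorems of Chepoi,
Gerasimov and Roller.  The facts of this file are classical.)
-/

set_option autoImplicit false

namespace Pool.Agent.H6.CM

open Set

/-- Median graphs: connected graphs in which any three vertices `a`, `b`, `c` have exactly one
median, i.e. a vertex `m` which lies on geodesics from `a` to `b`, from `b` to `c` and from `a` to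
`c`. -/
def IsMedian {V : Type*} (Γ : SimpleGraph V) : Prop :=
  Γ.Connected ∧ ∀ a b c : V, ∃! m : V, Γ.dist a m + Γ.dist m b = Γ.dist a b ∧
    Γ.dist b m + Γ.dist m c = Γ.dist b c ∧ Γ.dist a m + Γ.dist m c = Γ.dist a c

section graph

variable {V : Type*} {Γ : SimpleGraph V}

theorem d1 {a b : V} (h : Γ.Adj a b) : Γ.dist a b = 1 := SimpleGraph.dist_eq_one_iff_adj.2 h

theorem no_tri (h : IsMedian Γ) {a b c : V} (ab : Γ.Adj a b) (bc : Γ.Adj b c) (ac : Γ.Adj a c) :
    False := by
  obtain ⟨m, ⟨h1, h2, h3⟩, -⟩ := h.2 a b c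
  have e1 := d1 ab
  have e2 := d1 bc
  have e3 := d1 ac
  have e4 : Γ.dist m b = Γ.dist b m := SimpleGraph.dist_comm
  omega

theorem bip (h : IsMedian Γ) {a b : V} (ab : Γ.Adj a b) (v : V) : Γ.dist v a ≠ Γ.dist v b := by
  obtain ⟨m, ⟨h1, h2, h3⟩, -⟩ := h.2 v a b
  have e1 := d1 ab
  have e4 : Γ.dist m a = Γ.dist a m := SimpleGraph.dist_comm
  omega

theorem step (h : IsMedian Γ) {a b : V} (ab : Γ.Adj a b) (v : V) :
    Γ.dist v b = Γ.dist v a + 1 ∨ Γ.dist v a = Γ.dist v b + 1 := by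
  have h1 := bip h ab v
  have h2 := h.1.dist_triangle (u := v) (v := a) (w := b)
  have h3 := h.1.dist_triangle (u := v) (v := b) (w := a)
  have e1 := d1 ab
  have e2 := d1 ab.symm
  omega

theorem d2 (h : IsMedian Γ) {u a b : V} (ua : Γ.Adj u a) (ub : Γ.Adj u b) (hne : a ≠ b) :
    Γ.dist a b = 2 := by
  have h1 := h.1.dist_triangle (u := a) (v := u) (w := b)
  have e1 := d1 ua.symm
  have e2 := d1 ub
  have h2 : Γ.dist a b ≠ 0 := fun h0 => hne (h.1.dist_eq_zero_iff.1 h0)
  have h3 : Γ.dist a b ≠ 1 := fun h0 =>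
    no_tri h ua.symm ub (SimpleGraph.dist_eq_one_iff_adj.1 h0)
  omega

theorem quad (h : IsMedian Γ) {v u a c : V} (ua : Γ.Adj u a) (uc : Γ.Adj u c) (hne : a ≠ c)
    (ha : Γ.dist v u = Γ.dist v a + 1) (hc : Γ.dist v u = Γ.dist v c + 1) :
    ∃ m, Γ.Adj a m ∧ Γ.Adj c m ∧ Γ.dist v a = Γ.dist v m + 1 := by
  obtain ⟨m, ⟨h1, h2, h3⟩, -⟩ := h.2 v a c
  have h4 := d2 h ua uc hne
  have e1 : Γ.dist m a = Γ.dist a m := SimpleGraph.dist_comm
  have e2 : Γ.dist m c = Γ.dist c m := SimpleGraph.dist_comm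
  refine ⟨m, SimpleGraph.dist_eq_one_iff_adj.1 (by omega),
    SimpleGraph.dist_eq_one_iff_adj.1 (by omega), by omega⟩

theorem k23 (h : IsMedian Γ) {u w a b c : V} (ua : Γ.Adj u a) (ub : Γ.Adj u b) (uc : Γ.Adj u c)
    (wa : Γ.Adj w a) (wb : Γ.Adj w b) (wc : Γ.Adj w c) (ab : a ≠ b) (bc : b ≠ c) (ac : a ≠ c) :
    u = w := by
  obtain ⟨m, -, hm⟩ := h.2 a b c
  have e1 := d2 h ua ub ab
  have e2 := d2 h ub uc bc
  have e3 := d2 h ua uc ac
  have key : ∀ x : V, Γ.Adj x a → Γ.Adj x b → Γ.Adj x c → x = m := by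
    intro x xa xb xc
    refine hm x ⟨?_, ?_, ?_⟩
    · rw [d1 xa.symm, d1 xb, e1]
    · rw [d1 xb.symm, d1 xc, e2]
    · rw [d1 xa.symm, d1 xc, e3]
  rw [key u ua ub uc, key w wa wb wc]

/-- Opposite edges of a square define the same half-space. -/
theorem par (h : IsMedian Γ) {u u' w w' : V} (uu : Γ.Adj u u') (ww : Γ.Adj w w')
    (uw : Γ.Adj u w) (uw' : Γ.Adj u' w') (h1 : u ≠ w') (h2 : u' ≠ w) {v : V}
    (hv : Γ.dist v u' < Γ.dist v u) : Γ.dist v w' < Γ.dist v w := by
  by_contra hcon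
  have s1 := step h uu v
  have s2 := step h ww v
  have s3 := step h uw v
  have s4 := step h uw' v
  have hu : Γ.dist v u = Γ.dist v u' + 1 := by omega
  have hw : Γ.dist v u = Γ.dist v w + 1 := by omega
  obtain ⟨m, m1, m2, m3⟩ := quad h uu uw h2 hu hw
  have hmu : u ≠ m := by
    rintro rfl
    omega
  have hmw : w' ≠ m := by
    rintro rfl
    omega
  exact h2 (k23 h uu.symm uw' m1 uw.symm ww m2 h1 hmw hmu)

/-- Half-spaces of consecutive edges which do not span a square are nested. -/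
theorem nest (h : IsMedian Γ) {a u c : V} (au : Γ.Adj a u) (uc : Γ.Adj u c) (hac : a ≠ c)
    (huniq : ∀ m, Γ.Adj a m → Γ.Adj c m → m = u) {v : V} (hv : Γ.dist v c < Γ.dist v u) :
    Γ.dist v u < Γ.dist v a := by
  by_contra hcon
  have s1 := step h au v
  have s2 := step h uc v
  obtain ⟨m, m1, m2, m3⟩ := quad h au.symm uc hac (v := v) (by omega) (by omega)
  have := huniq m m1 m2
  subst this
  omega

end graph

theorem const_of_succ {P : ℤ → Prop} (h : ∀ y, P y ↔ P (y + 1)) (y y' : ℤ) : P y ↔ P y' := by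
  have key : ∀ (n : ℕ) (y : ℤ), P y ↔ P (y + n) := by
    intro n
    induction n with
    | zero => intro y; simp
    | succ n ih =>
      intro y
      rw [ih y, h (y + n)]
      push_cast
      rw [add_assoc]
  rcases le_total y y' with hy | hy
  · obtain ⟨n, hn⟩ := Int.eq_ofNat_of_zero_le (sub_nonneg.2 hy)
    have := key n y
    rwa [show y + (n : ℤ) = y' by omega] at this
  · obtain ⟨n, hn⟩ := Int.eq_ofNat_of_zero_le (sub_nonneg.2 hy)
    have := key n y'
    rw [show y' + (n : ℤ) = y by omega] at this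
    exact this.symm

/-- `G` acts on the locally finite median graph `Γ` by automorphisms, with finite stabilisers, and
the finite set `K` meets every orbit. -/
structure Geo {V : Type*} (Γ : SimpleGraph V) (G : Type*) [Group G] [MulAction G V] (K : Set V) :
    Prop where
  med : IsMedian Γ
  loc : ∀ v, (Γ.neighborSet v).Finite
  adj : ∀ (g : G) (v w : V), Γ.Adj v w → Γ.Adj (g • v) (g • w)
  stab : ∀ v : V, {g : G | g • v = v}.Finite
  fin : K.Finite
  cov : ∀ v : V, ∃ g : G, g • v ∈ K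

variable {V : Type*} {Γ : SimpleGraph V} {G : Type*} [Group G] [MulAction G V] {K : Set V}

theorem Geo.dist (hG : Geo Γ G K) (g : G) (v w : V) : Γ.dist (g • v) (g • w) = Γ.dist v w := by
  have key : ∀ (g : G) (v w : V), Γ.dist (g • v) (g • w) ≤ Γ.dist v w := by
    intro g v w
    obtain ⟨p, hp⟩ := hG.med.1.exists_walk_length_eq_dist v w
    let φ : Γ →g Γ := ⟨fun v => g • v, fun {a b} hab => hG.adj g a b hab⟩
    have := SimpleGraph.dist_le (p.map φ)
    rwa [SimpleGraph.Walk.length_map, hp] at this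
  refine le_antisymm (key g v w) ?_
  have := key g⁻¹ (g • v) (g • w)
  rwa [inv_smul_smul, inv_smul_smul] at this

theorem Geo.ball (hG : Geo Γ G K) (r : ℕ) : ∀ v, {w | Γ.dist v w ≤ r}.Finite := by
  induction r with
  | zero =>
    intro v
    refine (Set.finite_singleton v).subset fun w hw => ?_
    exact (hG.med.1.dist_eq_zero_iff.1 (Nat.le_zero.1 hw)).symm
  | succ r ih =>
    intro v
    refine (((hG.loc v).biUnion fun u _ => ih u).union (Set.finite_singleton v)).subset ?_
    intro w hw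
    obtain ⟨p, hp⟩ := hG.med.1.exists_walk_length_eq_dist v w
    cases p with
    | nil => exact Or.inr rfl
    | cons hadj q =>
      left
      refine Set.mem_biUnion (show _ ∈ Γ.neighborSet v from hadj) ?_
      rw [SimpleGraph.Walk.length_cons] at hp
      have h1 := SimpleGraph.dist_le q
      have h2 : Γ.dist v w ≤ r + 1 := hw
      show Γ.dist _ w ≤ r
      omega

theorem Geo.fin1 (hG : Geo Γ G K) (v w : V) : {u : G | u • v = w}.Finite := by
  rcases Set.eq_empty_or_nonempty {u : G | u • v = w} with h | ⟨u0, h0⟩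
  · rw [h]; exact Set.finite_empty
  · refine ((hG.stab v).image fun s => u0 * s).subset fun u hu => ⟨u0⁻¹ * u, ?_, by group⟩
    show (u0⁻¹ * u) • v = v
    rw [mul_smul, show u • v = w from hu, ← show u0 • v = w from h0, inv_smul_smul]

theorem Geo.move (hG : Geo Γ G K) (r : ℕ) : {u : G | ∃ v ∈ K, Γ.dist v (u • v) ≤ r}.Finite := by
  refine (hG.fin.biUnion fun v _ => (hG.ball r v).biUnion fun w _ => hG.fin1 v w).subset ?_
  rintro u ⟨v, hv, hd⟩
  exact Set.mem_biUnion hv (Set.mem_biUnion (show u • v ∈ {w | Γ.dist v w ≤ r} from hd) rfl)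

theorem exists_nb (h : IsMedian Γ) {u b : V} {k : ℕ} (hk : Γ.dist u b = k + 1) :
    ∃ u1, Γ.Adj u u1 ∧ Γ.dist u1 b = k := by
  obtain ⟨p, hp⟩ := h.1.exists_walk_length_eq_dist u b
  cases p with
  | nil => simp at hk
  | @cons _ x _ hadj q =>
    refine ⟨x, hadj, ?_⟩
    rw [SimpleGraph.Walk.length_cons, hk] at hp
    have h1 := SimpleGraph.dist_le q
    have h3 := d1 hadj
    have h4 := h.1.dist_triangle (u := u) (v := x) (w := b)
    omega

/-- An edge crossing the wall of `ab` defines the same half-spaces. -/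
theorem hs_edge (h : IsMedian Γ) {a b : V} (ab : Γ.Adj a b) (k : ℕ) : ∀ u v : V, Γ.Adj u v →
    Γ.dist u b = k → Γ.dist u b < Γ.dist u a → Γ.dist v a < Γ.dist v b →
    ∀ w, Γ.dist w u < Γ.dist w v ↔ Γ.dist w b < Γ.dist w a := by
  induction k with
  | zero =>
    intro u v uv hk h1 h2 w
    have hu : u = b := h.1.dist_eq_zero_iff.1 hk
    subst hu
    have h3 := d1 uv.symm
    have hv : v = a := h.1.dist_eq_zero_iff.1 (by omega)
    subst hv
    exact Iff.rfl
  | succ k ih =>
    intro u v uv hk h1 h2 w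
    obtain ⟨u1, uu1, hu1⟩ := exists_nb h hk
    have s1 := step h ab u
    have s2 := step h ab v
    have s3 := step h uv a
    have s4 := step h uv b
    have s5 := step h uu1 a
    have s6 := step h uu1 b
    have s7 := step h ab u1
    have c1 : Γ.dist a u = Γ.dist u a := SimpleGraph.dist_comm
    have c2 : Γ.dist a v = Γ.dist v a := SimpleGraph.dist_comm
    have c3 : Γ.dist b u = Γ.dist u b := SimpleGraph.dist_comm
    have c4 : Γ.dist b v = Γ.dist v b := SimpleGraph.dist_comm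
    have c5 : Γ.dist a u1 = Γ.dist u1 a := SimpleGraph.dist_comm
    have c6 : Γ.dist b u1 = Γ.dist u1 b := SimpleGraph.dist_comm
    have hne : v ≠ u1 := by
      rintro rfl
      omega
    obtain ⟨m, vm, um, hm⟩ := quad h (v := a) uv uu1 hne (by omega) (by omega)
    have s8 := step h vm b
    have s9 := step h um b
    have s10 := step h ab m
    have c7 : Γ.dist a m = Γ.dist m a := SimpleGraph.dist_comm
    have c8 : Γ.dist b m = Γ.dist m b := SimpleGraph.dist_comm
    have hr := ih u1 m um hu1 (by omega) (by omega) w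
    rw [← hr]
    have n1 : v ≠ u1 := hne
    have n2 : u ≠ m := by
      rintro rfl
      omega
    exact ⟨fun hw => par h uv.symm um.symm vm uu1 n1 n2 hw,
      fun hw => par h um.symm uv.symm vm.symm uu1.symm n2.symm n1.symm hw⟩

/-- Convex sets of vertices. -/
def Cvx (Γ : SimpleGraph V) (S : V → Prop) : Prop :=
  ∀ x y m : V, S x → S y → Γ.dist x m + Γ.dist m y = Γ.dist x y → S m

theorem hs_convex (h : IsMedian Γ) {a b : V} (ab : Γ.Adj a b) :
    Cvx Γ (fun v => Γ.dist v b < Γ.dist v a) := by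
  intro x y m hx hy hm
  obtain ⟨k, hk⟩ : ∃ k, Γ.dist m x = k := ⟨_, rfl⟩
  induction k generalizing m with
  | zero =>
    have : m = x := h.1.dist_eq_zero_iff.1 hk
    rw [this]
    exact hx
  | succ k ih =>
    obtain ⟨m1, mm1, hm1⟩ := exists_nb h hk
    have t1 := h.1.dist_triangle (u := x) (v := m1) (w := y)
    have t2 := h.1.dist_triangle (u := m1) (v := m) (w := y)
    have t3 := d1 mm1.symm
    have c1 : Γ.dist x m1 = Γ.dist m1 x := SimpleGraph.dist_comm
    have c2 : Γ.dist x m = Γ.dist m x := SimpleGraph.dist_comm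
    have h1 : Γ.dist m1 b < Γ.dist m1 a := ih m1 (by omega) hm1
    by_contra hcon
    have s1 := step h ab m
    have := (hs_edge h ab _ m1 m mm1.symm rfl h1 (by omega) y).2 hy
    have c3 : Γ.dist y m1 = Γ.dist m1 y := SimpleGraph.dist_comm
    have c4 : Γ.dist y m = Γ.dist m y := SimpleGraph.dist_comm
    omega

theorem Cvx.and {S T : V → Prop} (hS : Cvx Γ S) (hT : Cvx Γ T) : Cvx Γ (fun v => S v ∧ T v) :=
  fun x y m hx hy hm => ⟨hS x y m hx.1 hy.1 hm, hT x y m hx.2 hy.2 hm⟩

theorem helly3 (h : IsMedian Γ) {A B C : V → Prop} (hA : Cvx Γ A) (hB : Cvx Γ B) (hC : Cvx Γ C)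
    (hAB : ∃ v, A v ∧ B v) (hBC : ∃ v, B v ∧ C v) (hAC : ∃ v, A v ∧ C v) :
    ∃ v, A v ∧ B v ∧ C v := by
  obtain ⟨a, a1, a2⟩ := hAB
  obtain ⟨b, b1, b2⟩ := hBC
  obtain ⟨c, c1, c2⟩ := hAC
  obtain ⟨m, ⟨m1, m2, m3⟩, -⟩ := h.2 a b c
  exact ⟨m, hA a c m a1 c1 m3, hB a b m a2 b1 m1, hC b c m b2 c2 m2⟩

theorem helly (h : IsMedian Γ) (n : ℕ) : ∀ S : ℕ → V → Prop, (∀ i ≤ n, Cvx Γ (S i)) →
    (∀ i ≤ n, ∀ j ≤ n, ∃ v, S i v ∧ S j v) → ∃ v, ∀ i ≤ n, S i v := by
  induction n with
  | zero =>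
    intro S _ h2
    obtain ⟨v, hv, -⟩ := h2 0 le_rfl 0 le_rfl
    exact ⟨v, fun i hi => by rw [Nat.le_zero.1 hi]; exact hv⟩
  | succ n ih =>
    intro S h1 h2
    obtain ⟨v, hv⟩ := ih (fun i v => S i v ∧ S (n + 1) v)
      (fun i hi => (h1 i (by omega)).and (h1 _ le_rfl)) (fun i hi j hj => by
        obtain ⟨v, v1, v2, v3⟩ := helly3 h (h1 i (by omega)) (h1 j (by omega)) (h1 _ le_rfl)
          (h2 i (by omega) j (by omega)) (h2 j (by omega) _ le_rfl) (h2 i (by omega) _ le_rfl)
        exact ⟨v, ⟨v1, v3⟩, v2, v3⟩)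
    refine ⟨v, fun i hi => ?_⟩
    rcases Nat.lt_or_ge i (n + 1) with h3 | h3
    · exact (hv i (by omega)).1
    · rw [show i = n + 1 by omega]
      exact (hv 0 (by omega)).2

/-- Families of pairwise crossing walls: `a i`, `b i` are adjacent, and all four intersections of
half-spaces are nonempty.  Then some vertex has many neighbours. -/
theorem crossing (h : IsMedian Γ) (n : ℕ) (a b : ℕ → V) (ab : ∀ i, Γ.Adj (a i) (b i))
    (p0 q0 : V) (hp0 : ∀ i ≤ n, Γ.dist p0 (a i) < Γ.dist p0 (b i))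
    (hq0 : ∀ i ≤ n, Γ.dist q0 (b i) < Γ.dist q0 (a i))
    (hcr : ∀ i ≤ n, ∀ j ≤ n, i ≠ j →
      ∃ v, Γ.dist v (a i) < Γ.dist v (b i) ∧ Γ.dist v (b j) < Γ.dist v (a j)) :
    ∃ (p : V) (s : Finset V), n + 1 ≤ s.card ∧ ∀ u ∈ s, Γ.Adj p u := by
  classical
  -- a closest pair
  have hex : ∃ k, ∃ p q, Γ.dist p q = k ∧ (∀ i ≤ n, Γ.dist p (a i) < Γ.dist p (b i)) ∧
      ∀ i ≤ n, Γ.dist q (b i) < Γ.dist q (a i) := ⟨_, p0, q0, rfl, hp0, hq0⟩
  obtain ⟨p, q, hpq, hp, hq⟩ := Nat.find_spec hex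
  have hmin := fun m => Nat.find_min hex (m := m)
  rw [← hpq] at hmin
  have main : ∀ j : ℕ, j ≤ n → ∃ p', Γ.Adj p p' ∧ Γ.dist p' (b j) < Γ.dist p' (a j) ∧
      ∀ i ≤ n, i ≠ j → Γ.dist p' (a i) < Γ.dist p' (b i) := by
    intro j hj
    obtain ⟨r, hr⟩ := helly h n
      (fun i v => if i = j then Γ.dist v (b i) < Γ.dist v (a i) else
        Γ.dist v (a i) < Γ.dist v (b i))
      (fun i hi => by
        by_cases hij : i = j
        · simp only [hij, if_true]
          exact hs_convex h (ab j)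
        · simp only [if_neg hij]
          exact hs_convex h (ab i).symm)
      (fun i hi i' hi' => by
        by_cases hij : i = j
        · subst hij
          by_cases hij' : i' = i
          · subst hij'
            simp only [if_true]
            exact ⟨q, hq i' hi', hq i' hi'⟩
          · simp only [if_true, if_neg hij']
            obtain ⟨v, v1, v2⟩ := hcr i' hi' i hi hij'
            exact ⟨v, v2, v1⟩
        · by_cases hij' : i' = j
          · subst hij'
            simp only [if_true, if_neg hij]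
            exact hcr i hi i' hi' hij
          · simp only [if_neg hij, if_neg hij']
            exact ⟨p, hp i hi, hp i' hi'⟩)
    obtain ⟨m, ⟨m1, m2, m3⟩, -⟩ := h.2 p q r
    have hrj : Γ.dist r (b j) < Γ.dist r (a j) := by simpa using hr j hj
    have hri : ∀ i ≤ n, i ≠ j → Γ.dist r (a i) < Γ.dist r (b i) := fun i hi hij => by
      simpa [hij] using hr i hi
    have hmj : Γ.dist m (b j) < Γ.dist m (a j) := hs_convex h (ab j) q r m (hq j hj) hrj m2
    have hmi : ∀ i ≤ n, i ≠ j → Γ.dist m (a i) < Γ.dist m (b i) := fun i hi hij =>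
      hs_convex h (ab i).symm p r m (hp i hi) (hri i hi hij) m3
    have hne : Γ.dist p m ≠ 0 := fun h0 => by
      have : p = m := h.1.dist_eq_zero_iff.1 h0
      subst this
      have := hp j hj
      omega
    obtain ⟨k, hk⟩ := Nat.exists_eq_succ_of_ne_zero hne
    obtain ⟨p', pp', hp'⟩ := exists_nb h hk
    have t1 := h.1.dist_triangle (u := p') (v := m) (w := q)
    have hp'i : ∀ i ≤ n, i ≠ j → Γ.dist p' (a i) < Γ.dist p' (b i) := fun i hi hij =>
      hs_convex h (ab i).symm p m p' (hp i hi) (hmi i hi hij) (by rw [d1 pp', hp', hk]; omega)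
    refine ⟨p', pp', ?_, hp'i⟩
    by_contra hcon
    have s1 := step h (ab j) p'
    refine hmin (Γ.dist p' q) (by omega) ⟨p', q, rfl, fun i hi => ?_, hq⟩
    by_cases hij : i = j
    · subst hij
      omega
    · exact hp'i i hi hij
  have : Nonempty V := ⟨p⟩
  choose! p' h1 h2 h3 using main
  refine ⟨p, (Finset.range (n + 1)).image p', ?_, fun u hu => ?_⟩
  · rw [Finset.card_image_of_injOn, Finset.card_range]
    intro i hi j hj hij
    rw [Finset.mem_coe, Finset.mem_range] at hi hj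
    by_contra hne
    have e1 := h2 i (by omega)
    have e2 := h3 j (by omega) i (by omega) hne
    rw [show p' i = p' j from hij] at e1
    omega
  · rw [Finset.mem_image] at hu
    obtain ⟨i, hi, rfl⟩ := hu
    rw [Finset.mem_range] at hi
    exact h1 i (by omega)

theorem Geo.degree (hG : Geo Γ G K) : ∃ D : ℕ, ∀ (v : V) (s : Finset V),
    (∀ u ∈ s, Γ.Adj v u) → s.card ≤ D := by
  classical
  have hU : (⋃ v ∈ K, Γ.neighborSet v).Finite := hG.fin.biUnion fun v _ => hG.loc v
  refine ⟨hU.toFinset.card, fun v s hs => ?_⟩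
  obtain ⟨g, hg⟩ := hG.cov v
  have h1 : (s.image fun u => g • u) ⊆ hU.toFinset := by
    intro u hu
    rw [Finset.mem_image] at hu
    obtain ⟨w, hw, rfl⟩ := hu
    rw [Set.Finite.mem_toFinset]
    exact Set.mem_biUnion hg (hG.adj g v w (hs w hw))
  have h2 := Finset.card_le_card h1
  rwa [Finset.card_image_of_injective _ (MulAction.injective g)] at h2


end Pool.Agent.H6.CM
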