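import Pool.Agent.H6.CM.Half

/-!
# Convex sets with cofinite stabilisers; nested pairs of half-spaces
-/

set_option autoImplicit false

namespace Pool.Agent.H6.CM

open Set
open scoped Pointwise

variable {V : Type*} {Γ : SimpleGraph V} {G : Type*} [Group G] [MulAction G V] {B : Set V}

/-- Sets at finite Hausdorff distance. -/
def Close (Γ : SimpleGraph V) (F F' : Set V) : Prop :=
  ∃ c : ℕ, (∀ x ∈ F, ∃ y ∈ F', Γ.dist x y ≤ c) ∧ ∀ y ∈ F', ∃ x ∈ F, Γ.dist x y ≤ c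

theorem Close.refl (F : Set V) : Close Γ F F :=
  ⟨0, fun x hx => ⟨x, hx, by simp⟩, fun x hx => ⟨x, hx, by simp⟩⟩

theorem Close.symm {F F' : Set V} (h : Close Γ F F') : Close Γ F' F := by
  obtain ⟨c, h1, h2⟩ := h
  refine ⟨c, fun x hx => ?_, fun y hy => ?_⟩
  · obtain ⟨y, hy, hd⟩ := h2 x hx
    exact ⟨y, hy, by rwa [SimpleGraph.dist_comm]⟩
  · obtain ⟨x, hx, hd⟩ := h1 y hy
    exact ⟨x, hx, by rwa [SimpleGraph.dist_comm]⟩

theorem Close.trans (hm : IsMedian Γ) {F F' F'' : Set V} (h : Close Γ F F')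
    (h' : Close Γ F' F'') : Close Γ F F'' := by
  obtain ⟨c, h1, h2⟩ := h
  obtain ⟨d, h3, h4⟩ := h'
  refine ⟨c + d, fun x hx => ?_, fun y hy => ?_⟩
  · obtain ⟨y, hy, hd⟩ := h1 x hx
    obtain ⟨z, hz, hd'⟩ := h3 y hy
    exact ⟨z, hz, (hm.1.dist_triangle (u := x) (v := y) (w := z)).trans (by omega)⟩
  · obtain ⟨x, hx, hd⟩ := h4 y hy
    obtain ⟨z, hz, hd'⟩ := h2 x hx
    exact ⟨z, hz, (hm.1.dist_triangle (u := z) (v := x) (w := y)).trans (by omega)⟩

theorem Close.smul (hG : Geo Γ G B) (g : G) {F F' : Set V} (h : Close Γ F F') :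
    Close Γ (g • F) (g • F') := by
  obtain ⟨c, h1, h2⟩ := h
  refine ⟨c, fun x hx => ?_, fun y hy => ?_⟩
  · obtain ⟨x, hx', rfl⟩ := Set.mem_smul_set.1 hx
    obtain ⟨y, hy, hd⟩ := h1 x hx'
    exact ⟨g • y, Set.smul_mem_smul_set hy, by rwa [hG.dist]⟩
  · obtain ⟨y, hy', rfl⟩ := Set.mem_smul_set.1 hy
    obtain ⟨x, hx, hd⟩ := h2 y hy'
    exact ⟨g • x, Set.smul_mem_smul_set hx, by rwa [hG.dist]⟩

/-- The coarse stabiliser of a set. -/
def cst (hG : Geo Γ G B) (F : Set V) : Subgroup G where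
  carrier := {g | Close Γ F (g • F)}
  one_mem' := by
    show Close Γ F ((1 : G) • F)
    rw [one_smul]
    exact Close.refl F
  mul_mem' := fun {g h} hg hh => by
    show Close Γ F ((g * h) • F)
    rw [mul_smul]
    exact Close.trans hG.med hg (Close.smul hG g hh)
  inv_mem' := fun {g} hg => by
    show Close Γ F (g⁻¹ • F)
    have h1 := Close.smul hG g⁻¹ hg
    rw [inv_smul_smul] at h1
    exact h1.symm

theorem mem_cst (hG : Geo Γ G B) {F : Set V} {g : G} : g ∈ cst hG F ↔ Close Γ F (g • F) :=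
  Iff.rfl

/-- `F` is convex and invariant under `K`, which acts on `F` with finitely many orbits. -/
structure CC (Γ : SimpleGraph V) (K : Subgroup G) (F : Set V) : Prop where
  cv : Cv Γ F
  inv : ∀ k ∈ K, ∀ x ∈ F, k • x ∈ F
  cof : ∃ C : Set V, C.Finite ∧ ∀ x ∈ F, ∃ k ∈ K, k • x ∈ C

variable {K : Subgroup G} {F : Set V}

theorem CC.smul_eq (hF : CC Γ K F) {k : G} (hk : k ∈ K) : k • F = F := by
  ext x
  rw [Set.mem_smul_set_iff_inv_smul_mem]
  refine ⟨fun h => ?_, fun h => hF.inv _ (K.inv_mem hk) _ h⟩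
  have := hF.inv k hk _ h
  rwa [smul_inv_smul] at this

theorem CC.le_cst (hG : Geo Γ G B) (hF : CC Γ K F) : K ≤ cst hG F := by
  intro k hk
  rw [mem_cst, hF.smul_eq hk]
  exact Close.refl F

/-- The elements `u` such that `u • F` is near a vertex are in finitely many left cosets of `K`. -/
theorem near_fin (hG : Geo Γ G B) (hF : CC Γ K F) (v : V) (r : ℕ) :
    ∃ R : Set G, R.Finite ∧ ∀ u : G, (∃ y ∈ u • F, Γ.dist v y ≤ r) → ∃ s ∈ R, ∃ κ ∈ K,
      u = s * κ := by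
  obtain ⟨C, hC, hcov⟩ := hF.cof
  refine ⟨⋃ c ∈ C, ⋃ y ∈ {w | Γ.dist v w ≤ r}, {g : G | g • c = y},
    hC.biUnion fun c _ => (hG.ball r v).biUnion fun y _ => hG.fin1 c y, ?_⟩
  rintro u ⟨y, hy, hd⟩
  rw [Set.mem_smul_set_iff_inv_smul_mem] at hy
  obtain ⟨κ, hκ, hc⟩ := hcov _ hy
  refine ⟨u * κ⁻¹, ?_, κ, hκ, by group⟩
  refine Set.mem_biUnion hc (Set.mem_biUnion (show y ∈ {w | Γ.dist v w ≤ r} from hd) ?_)
  show (u * κ⁻¹) • κ • u⁻¹ • y = y
  rw [mul_smul, inv_smul_smul, smul_inv_smul]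

/-- Double cosets. -/
theorem dcoset (hG : Geo Γ G B) (hF : CC Γ K F) (hne : F.Nonempty) {h : G} (hh : h ∈ cst hG F) :
    ∃ R : Set G, R.Finite ∧ ∀ k ∈ K, ∃ s ∈ R, ∃ κ ∈ K, k * h = s * κ := by
  obtain ⟨x0, hx0⟩ := hne
  obtain ⟨c, h1, -⟩ := hh
  obtain ⟨R, hR, h2⟩ := near_fin hG hF x0 c
  refine ⟨R, hR, fun k hk => h2 _ ?_⟩
  obtain ⟨z, hz, hd⟩ := h1 (k⁻¹ • x0) (hF.inv _ (K.inv_mem hk) _ hx0)
  refine ⟨k • z, ?_, ?_⟩
  · rw [mul_smul]
    exact Set.smul_mem_smul_set hz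
  · rwa [← hG.dist k⁻¹, inv_smul_smul]

/-- The orbit of `W` under `K` is finite. -/
def FO (K : Subgroup G) (W : Set V) : Prop := {W' | ∃ k ∈ K, W' = k • W}.Finite

theorem FO.smul (hG : Geo Γ G B) (hF : CC Γ K F) (hne : F.Nonempty) {h : G} (hh : h ∈ cst hG F)
    {W : Set V} (hW : FO K W) : FO K (h • W) := by
  obtain ⟨R, hR, h1⟩ := dcoset hG hF hne hh
  refine (hR.biUnion fun s _ => hW.image fun A => s • A).subset ?_
  rintro _ ⟨k, hk, rfl⟩
  obtain ⟨s, hs, κ, hκ, he⟩ := h1 k hk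
  refine Set.mem_biUnion hs ⟨κ • W, ⟨κ, hκ, rfl⟩, ?_⟩
  show s • κ • W = k • h • W
  rw [← mul_smul, ← mul_smul, he]

theorem FO.self (hF : CC Γ K F) : FO K F := by
  refine (Set.finite_singleton F).subset ?_
  rintro _ ⟨k, hk, rfl⟩
  exact hF.smul_eq hk

theorem FO.mono {K' : Subgroup G} (hK : K' ≤ K) {W : Set V} (hW : FO K W) : FO K' W :=
  hW.subset fun _ ⟨k, hk, he⟩ => ⟨k, hK hk, he⟩

theorem FO.pow {W : Set V} (hW : FO K W) {k : G} (hk : k ∈ K) :
    ∃ m : ℕ, 0 < m ∧ k ^ m • W = W := by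
  have h1 : ¬ Function.Injective fun i : ℕ => k ^ i • W := fun hinj => by
    refine Set.infinite_range_of_injective hinj (hW.subset ?_)
    rintro _ ⟨i, rfl⟩
    exact ⟨k ^ i, K.pow_mem hk i, rfl⟩
  unfold Function.Injective at h1
  push Not at h1
  obtain ⟨i, j, he, hne⟩ := h1
  have key : ∀ i j : ℕ, i < j → k ^ i • W = k ^ j • W → ∃ m : ℕ, 0 < m ∧ k ^ m • W = W := by
    intro i j hij he
    refine ⟨j - i, by omega, ?_⟩
    rw [show j = i + (j - i) by omega, pow_add, mul_smul] at he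
    have := congrArg (fun A => (k ^ i)⁻¹ • A) he
    simp only [inv_smul_smul] at this
    exact this.symm
  rcases lt_or_gt_of_ne hne with h2 | h2
  · exact key i j h2 he
  · exact key j i h2 he.symm

/-- The half-spaces which cross `F` form finitely many orbits. -/
theorem cross_fin (hG : Geo Γ G B) (hF : CC Γ K F) : ∃ T : Set (Set V), T.Finite ∧
    ∀ A, Half Γ A → (∃ x ∈ F, x ∈ A) → (∃ x ∈ F, x ∉ A) → ∃ k ∈ K, k • A ∈ T := by
  obtain ⟨C, hC, hcov⟩ := hF.cof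
  refine ⟨⋃ c ∈ C, (fun d => side Γ c d) '' Γ.neighborSet c,
    hC.biUnion fun c _ => (hG.loc c).image _, ?_⟩
  rintro A hA ⟨x, hx, hxA⟩ ⟨y, hy, hyA⟩
  obtain ⟨u, hu, v, hv, uv, huA, hvA⟩ := exists_edge hG.med hF.cv hx hxA hy hyA
  obtain ⟨k, hk, hc⟩ := hcov u hu
  refine ⟨k, hk, Set.mem_biUnion hc ⟨k • v, hG.adj k _ _ uv, ?_⟩⟩
  show side Γ (k • u) (k • v) = k • A
  rw [half_edge hG.med hA uv huA hvA, smul_side hG]

theorem CC.stab (hF : CC Γ K F) {W : Set V} (hW : FO K W) :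
    CC Γ (K ⊓ MulAction.stabilizer G W) F := by
  refine ⟨hF.cv, fun k hk => hF.inv k hk.1, ?_⟩
  obtain ⟨C, hC, hcov⟩ := hF.cof
  have h1 : ∀ A ∈ {W' | ∃ k ∈ K, W' = k • W}, ∃ k : G, k ∈ K ∧ A = k • W := fun A hA => hA
  choose! f hf1 hf2 using h1
  refine ⟨⋃ A ∈ {W' | ∃ k ∈ K, W' = k • W}, (fun c => (f A)⁻¹ • c) '' C,
    hW.biUnion fun A _ => hC.image _, fun x hx => ?_⟩
  obtain ⟨k, hk, hc⟩ := hcov x hx
  have hm : k • W ∈ {W' | ∃ k ∈ K, W' = k • W} := ⟨k, hk, rfl⟩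
  refine ⟨(f (k • W))⁻¹ * k, ⟨K.mul_mem (K.inv_mem (hf1 _ hm)) hk, ?_⟩,
    Set.mem_biUnion hm ⟨k • x, hc, ?_⟩⟩
  · show ((f (k • W))⁻¹ * k) • W = W
    rw [mul_smul]
    have := hf2 _ hm
    nth_rewrite 2 [this]
    rw [inv_smul_smul]
  · show (f (k • W))⁻¹ • k • x = _
    rw [mul_smul]

/-- The vertices of `A` with a neighbour outside `A`. -/
def bd (Γ : SimpleGraph V) (A : Set V) : Set V := {x | x ∈ A ∧ ∃ y, Γ.Adj x y ∧ y ∉ A}

theorem bd_cv (h : IsMedian Γ) {A : Set V} (hA : Half Γ A) : Cv Γ (bd Γ A) := by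
  rintro x ⟨hx, x', xx, hx'⟩ y ⟨hy, y', yy, hy'⟩ m hm
  have hmA : m ∈ A := hA.cv h x hx y hy m hm
  refine ⟨hmA, ?_⟩
  obtain ⟨m', ⟨h1, h2, h3⟩, -⟩ := h.2 m x' y'
  have ex := half_edge h hA xx hx hx'
  have ey := half_edge h hA yy hy hy'
  have sx : ∀ z ∈ A, Γ.dist z x' = Γ.dist z x + 1 := fun z hz => by
    have h4 : Γ.dist z x < Γ.dist z x' := by rw [ex] at hz; exact hz
    have := step h xx z
    omega
  have sy : ∀ z ∈ A, Γ.dist z y' = Γ.dist z y + 1 := fun z hz => by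
    have h4 : Γ.dist z y < Γ.dist z y' := by rw [ey] at hz; exact hz
    have := step h yy z
    omega
  have sy' : Γ.dist x' y = Γ.dist x' y' + 1 := by
    have h4 : ¬ Γ.dist x' y < Γ.dist x' y' := fun h5 => hx' (by rw [ey]; exact h5)
    have := step h yy x'
    omega
  have e1 := sx m hmA
  have e2 := sy m hmA
  have e3 := sx y hy
  have c1 : Γ.dist y x' = Γ.dist x' y := SimpleGraph.dist_comm
  have c2 : Γ.dist y x = Γ.dist x y := SimpleGraph.dist_comm
  have c3 : Γ.dist m x = Γ.dist x m := SimpleGraph.dist_comm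
  have c4 : Γ.dist m' x' = Γ.dist x' m' := SimpleGraph.dist_comm
  have e4 : Γ.dist m m' = 1 := by omega
  exact ⟨m', SimpleGraph.dist_eq_one_iff_adj.1 e4, (hA.compl h).cv h x' hx' y' hy' m' h2⟩

theorem smul_bd (hG : Geo Γ G B) (g : G) (A : Set V) : g • bd Γ A = bd Γ (g • A) := by
  ext x
  rw [Set.mem_smul_set_iff_inv_smul_mem]
  constructor
  · rintro ⟨h1, y, h2, h3⟩
    refine ⟨Set.mem_smul_set_iff_inv_smul_mem.2 h1, g • y, ?_, ?_⟩
    · have := hG.adj g _ _ h2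
      rwa [smul_inv_smul] at this
    · rw [Set.smul_mem_smul_set_iff]
      exact h3
  · rintro ⟨h1, y, h2, h3⟩
    refine ⟨Set.mem_smul_set_iff_inv_smul_mem.1 h1, g⁻¹ • y, hG.adj _ _ _ h2, ?_⟩
    rwa [← Set.mem_smul_set_iff_inv_smul_mem]

/-- The part of `F` along the boundary of a half-space. -/
theorem CC.bd (hG : Geo Γ G B) (hF : CC Γ K F) {A : Set V} (hA : Half Γ A) :
    CC Γ (K ⊓ MulAction.stabilizer G A) (F ∩ bd Γ A) := by
  refine ⟨hF.cv.inter (bd_cv hG.med hA), ?_, ?_⟩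
  · rintro k ⟨hk, hkA⟩ x ⟨hx, hxA⟩
    refine ⟨hF.inv k hk x hx, ?_⟩
    have h1 : k • A = A := hkA
    have h2 := Set.smul_mem_smul_set (a := k) hxA
    rwa [smul_bd hG, h1] at h2
  obtain ⟨C, hC, hcov⟩ := hF.cof
  -- for every edge `c d` with `c` in `C` choose an element which carries `A` to `side c d`
  have h1 : ∀ e : V × V, ∃ k : G, (∃ k' ∈ K, k' • A = side Γ e.1 e.2) →
      k ∈ K ∧ k • A = side Γ e.1 e.2 := by
    intro e
    by_cases h : ∃ k' ∈ K, k' • A = side Γ e.1 e.2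
    · obtain ⟨k', h1, h2⟩ := h
      exact ⟨k', fun _ => ⟨h1, h2⟩⟩
    · exact ⟨1, fun h' => absurd h' h⟩
  choose f hf using h1
  refine ⟨⋃ c ∈ C, ⋃ d ∈ Γ.neighborSet c, {(f (c, d))⁻¹ • c},
    hC.biUnion fun c _ => (hG.loc c).biUnion fun d _ => Set.finite_singleton _, ?_⟩
  rintro x ⟨hx, hxA, y, hxy, hyA⟩
  obtain ⟨k, hk, hc⟩ := hcov x hx
  have h2 : k • A = side Γ (k • x) (k • y) := by
    rw [half_edge hG.med hA hxy hxA hyA, smul_side hG]
  obtain ⟨h3, h4⟩ := hf (k • x, k • y) ⟨k, hk, h2⟩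
  refine ⟨(f (k • x, k • y))⁻¹ * k, ⟨K.mul_mem (K.inv_mem h3) hk, ?_⟩, ?_⟩
  · show ((f (k • x, k • y))⁻¹ * k) • A = A
    rw [mul_smul, h2, ← h4, inv_smul_smul]
  · refine Set.mem_biUnion hc (Set.mem_biUnion (show k • y ∈ Γ.neighborSet (k • x) from
      hG.adj k _ _ hxy) ?_)
    rw [mul_smul]
    exact Set.mem_singleton _

/-- Long geodesics which cross half-spaces of few orbits contain a skewered half-space. -/
theorem nested_pair (hG : Geo Γ G B) : ∃ D : ℕ, ∀ (T : Finset (Set V)) (H : Subgroup G)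
    (u : ℕ → V) (N : ℕ), D * T.card < N →
    (∀ i j, i ≤ j → j ≤ N → Γ.dist (u i) (u j) = j - i) →
    (∀ i < N, ∃ g ∈ H, g • side Γ (u (i + 1)) (u i) ∈ T) →
    ∃ i < N, ∃ g ∈ H, g • side Γ (u (i + 1)) (u i) ⊂ side Γ (u (i + 1)) (u i) := by
  classical
  obtain ⟨D, hD⟩ := hG.degree
  refine ⟨D, fun T H u N hN hu hT => ?_⟩
  choose! γ hγH hγT using hT
  obtain ⟨t, ht, hcard⟩ := Finset.exists_lt_card_fiber_of_mul_lt_card_of_maps_to
    (s := Finset.range N) (t := T) (f := fun i => γ i • side Γ (u (i + 1)) (u i)) (n := D)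
    (fun i hi => hγT i (Finset.mem_range.1 hi)) (by rw [Finset.card_range]; linarith [mul_comm D T.card])
  set S := {i ∈ Finset.range N | γ i • side Γ (u (i + 1)) (u i) = t} with hS
  have hadj : ∀ i < N, Γ.Adj (u i) (u (i + 1)) := fun i hi =>
    SimpleGraph.dist_eq_one_iff_adj.1 (by rw [hu i (i + 1) (by omega) (by omega)]; omega)
  by_contra hcon
  push Not at hcon
  -- the walls in `S` cross pairwise
  let e := S.orderEmbOfFin rfl
  have he : ∀ i : Fin S.card, e i ∈ S := fun i => Finset.orderEmbOfFin_mem S rfl i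
  have hpos : 0 < S.card := by omega
  let x : ℕ → ℕ := fun i => if h : i < S.card then e ⟨i, h⟩ else e ⟨0, hpos⟩
  have hx : ∀ i, x i ∈ S := fun i => by
    by_cases h : i < S.card
    · simp only [x, h, dif_pos]
      exact he _
    · simp only [x, h]
      exact he _
  have hxlt : ∀ i j, i < j → j < S.card → x i < x j := fun i j hij hj => by
    simp only [x, hj, dif_pos, show i < S.card by omega]
    exact e.strictMono hij
  have hxN : ∀ i, x i < N := fun i => by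
    have := hx i
    rw [hS, Finset.mem_filter, Finset.mem_range] at this
    exact this.1
  have hxt : ∀ i, γ (x i) • side Γ (u (x i + 1)) (u (x i)) = t := fun i => by
    have := hx i
    rw [hS, Finset.mem_filter] at this
    exact this.2
  have hcr : ∀ i j, i < j → j < S.card → ∃ v, v ∈ side Γ (u (x j + 1)) (u (x j)) ∧
      v ∉ side Γ (u (x i + 1)) (u (x i)) := by
    intro i j hij hj
    have hlt := hxlt i j hij hj
    by_contra h1
    push Not at h1
    refine hcon (x i) (hxN i) ((γ (x j))⁻¹ * γ (x i))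
      (H.mul_mem (H.inv_mem (hγH _ (hxN j))) (hγH _ (hxN i))) ?_
    rw [mul_smul, hxt i, ← hxt j, inv_smul_smul]
    refine ⟨h1, fun h2 => ?_⟩
    have h3 : u (x i + 1) ∈ side Γ (u (x j + 1)) (u (x j)) :=
      h2 (left_mem (hadj _ (hxN i)).symm)
    have h4 : Γ.dist (u (x i + 1)) (u (x j + 1)) < Γ.dist (u (x i + 1)) (u (x j)) := h3
    have := hxN j
    rw [hu _ _ (by omega) (by omega), hu _ _ (by omega) (by omega)] at h4
    omega
  obtain ⟨p, s, hs, hps⟩ := crossing hG.med (S.card - 1) (fun i => u (x i))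
    (fun i => u (x i + 1)) (fun i => hadj _ (hxN i)) (u 0) (u N) (fun i hi => by
      have := hxN i
      rw [hu _ _ (by omega) (by omega), hu _ _ (by omega) (by omega)]
      omega) (fun i hi => by
      have := hxN i
      rw [SimpleGraph.dist_comm, SimpleGraph.dist_comm (u := u N),
        hu _ _ (by omega) (by omega), hu _ _ (by omega) (by omega)]
      omega) (fun i hi j hj hij => by
      rcases lt_or_gt_of_ne hij with h1 | h1
      · obtain ⟨v, v1, v2⟩ := hcr i j h1 (by omega)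
        refine ⟨v, ?_, v1⟩
        have v3 : ¬ Γ.dist v (u (x i + 1)) < Γ.dist v (u (x i)) := v2
        have := bip hG.med (hadj _ (hxN i)) v
        omega
      · have h2 := hxlt j i h1 (by omega)
        have := hxN i
        refine ⟨u (x j + 1), ?_, ?_⟩
        · rw [hu _ _ (by omega) (by omega), hu _ _ (by omega) (by omega)]
          omega
        · rw [SimpleGraph.dist_self, SimpleGraph.dist_comm, hu _ _ (by omega) (by omega)]
          omega)
  have := hD p s hps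
  omega

end Pool.Agent.H6.CM
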