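import Pool.Agent.H6.CM.FinSub

/-!
# The coarse stabiliser of an infinite convex set with cofinite stabiliser
-/

set_option autoImplicit false

namespace Pool.Agent.H6.CM

open Set
open scoped Pointwise

variable {V : Type*} {Γ : SimpleGraph V} {G : Type*} [Group G] [MulAction G V] {B : Set V}
variable {K : Subgroup G} {F : Set V}

/-- The half-spaces which separate `F` from a translate by an element of a finitely generated
extension of `K` are in finitely many orbits. -/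
theorem orbits_fin (hG : Geo Γ G B) (hF : CC Γ K F) (hne : F.Nonempty) (S : Set G)
    (hS : S.Finite) : ∃ T : Set (Set V), T.Finite ∧
    ∀ g ∈ Subgroup.closure ((K : Set G) ∪ S), ∀ W, Half Γ W → (∃ x ∈ F, x ∉ W) →
      (∀ x ∈ g • F, x ∈ W) → ∃ u ∈ Subgroup.closure ((K : Set G) ∪ S), u • W ∈ T := by
  obtain ⟨x0, hx0⟩ := hne
  obtain ⟨T0, hT0, hcross⟩ := cross_fin hG hF
  have hKH : K ≤ Subgroup.closure ((K : Set G) ∪ S) := fun k hk =>
    Subgroup.subset_closure (Or.inl hk)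
  -- one step
  have hstep : ∀ y : G, ∃ T : Set (Set V), T.Finite ∧ ∀ W, Half Γ W → (∃ x ∈ F, x ∉ W) →
      (∀ x ∈ y • F, x ∈ W) → ∃ u ∈ Subgroup.closure ((K : Set G) ∪ S), u • W ∈ T := by
    intro y
    refine ⟨T0 ∪ {W | Half Γ W ∧ y • x0 ∈ W ∧ x0 ∉ W}, hT0.union (sep_fin hG.med _ _), ?_⟩
    intro W hW hFW hyW
    by_cases h1 : ∃ x ∈ F, x ∈ W
    · obtain ⟨k, hk, hkT⟩ := hcross W hW h1 hFW
      exact ⟨k, hKH hk, Or.inl hkT⟩
    · push Not at h1
      refine ⟨1, Subgroup.one_mem _, Or.inr ?_⟩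
      rw [one_smul]
      exact ⟨hW, hyW _ (Set.smul_mem_smul_set hx0), h1 x0 hx0⟩
  choose T hT hTs using hstep
  refine ⟨⋃ y ∈ S ∪ (fun s => s⁻¹) '' S, T y, (hS.union (hS.image _)).biUnion fun y _ => hT y, ?_⟩
  -- the induction step
  have key : ∀ x ∈ Subgroup.closure ((K : Set G) ∪ S), ∀ y : G,
      (∀ W, Half Γ W → (∃ x ∈ F, x ∉ W) → (∀ z ∈ x • F, z ∈ W) →
        ∃ u ∈ Subgroup.closure ((K : Set G) ∪ S), u • W ∈ ⋃ y ∈ S ∪ (fun s => s⁻¹) '' S, T y) →
      (y ∈ S ∪ (fun s => s⁻¹) '' S) →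
      (∀ W, Half Γ W → (∃ x ∈ F, x ∉ W) → (∀ z ∈ (x * y) • F, z ∈ W) →
        ∃ u ∈ Subgroup.closure ((K : Set G) ∪ S),
          u • W ∈ ⋃ y ∈ S ∪ (fun s => s⁻¹) '' S, T y) := by
    intro x hx y ih hy W hW hFW hxy
    by_cases h1 : ∀ z ∈ x • F, z ∈ W
    · exact ih W hW hFW h1
    push Not at h1
    obtain ⟨z, hz, hzW⟩ := h1
    obtain ⟨u, hu, huT⟩ := hTs y (x⁻¹ • W) (hW.smul hG _) ⟨x⁻¹ • z,
      Set.mem_smul_set_iff_inv_smul_mem.1 hz, by rwa [Set.smul_mem_smul_set_iff]⟩ (fun w hw => by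
      rw [Set.mem_inv_smul_set_iff]
      refine hxy _ ?_
      rw [mul_smul]
      exact Set.smul_mem_smul_set hw)
    refine ⟨u * x⁻¹, Subgroup.mul_mem _ hu (Subgroup.inv_mem _ hx), ?_⟩
    rw [mul_smul]
    exact Set.mem_biUnion hy huT
  intro g hg
  induction hg using Subgroup.closure_induction_right with
  | one =>
    rintro W - ⟨x, hx, hxW⟩ h
    rw [one_smul] at h
    exact absurd (h x hx) hxW
  | mul_right x hx y hy ih =>
    rcases hy with hy | hy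
    · intro W hW hFW h
      refine ih W hW hFW fun z hz => h z ?_
      rwa [mul_smul, hF.smul_eq hy]
    · exact key x hx y ih (Or.inl hy)
  | mul_inv_cancel x hx y hy ih =>
    rcases hy with hy | hy
    · intro W hW hFW h
      refine ih W hW hFW fun z hz => h z ?_
      rwa [mul_smul, hF.smul_eq (K.inv_mem hy)]
    · exact key x hx y⁻¹ ih (Or.inr ⟨y, hy, rfl⟩)

/-- Infinitely many translates are far away. -/
theorem far (hG : Geo Γ G B) (hF : CC Γ K F) (hne : F.Nonempty) {H : Subgroup G}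
    (hH : H ≤ cst hG F) (hinf : {X | ∃ g ∈ H, X = g • F}.Infinite) (N : ℕ) :
    ∃ g ∈ H, ∀ x ∈ F, ∀ y ∈ g • F, N ≤ Γ.dist x y := by
  by_contra hcon
  push Not at hcon
  obtain ⟨C, hC, hcov⟩ := hF.cof
  choose R hR1 hR2 using fun v : V => near_fin hG hF v N
  refine hinf ((hC.biUnion fun c _ => ((hR1 c).inter_of_left (cst hG F : Set G)).biUnion
    fun s hs => ?_ : (⋃ c ∈ C, ⋃ s ∈ R c ∩ (cst hG F : Set G),
      {X | ∃ k ∈ K, X = k • s • F}).Finite).subset ?_)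
  · exact (FO.self hF).smul hG hF hne hs.2
  · rintro _ ⟨g, hg, rfl⟩
    obtain ⟨x, hx, y, hy, hd⟩ := hcon g hg
    obtain ⟨k, hk, hc⟩ := hcov x hx
    obtain ⟨s, hs, κ, hκ, he⟩ := hR2 (k • x) (k * g) ⟨k • y, by
      rw [mul_smul]
      exact Set.smul_mem_smul_set hy, by rw [hG.dist]; exact hd.le⟩
    have hs' : s ∈ cst hG F := by
      have : s = k * g * κ⁻¹ := by rw [he]; group
      rw [this]
      exact Subgroup.mul_mem _ (Subgroup.mul_mem _ (hF.le_cst hG hk) (hH hg))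
        (Subgroup.inv_mem _ (hF.le_cst hG hκ))
    refine Set.mem_biUnion hc (Set.mem_biUnion ⟨hs, hs'⟩ ⟨k⁻¹, K.inv_mem hk, ?_⟩)
    have : s • F = k • g • F := by rw [← mul_smul, he, mul_smul, hF.smul_eq hκ]
    rw [this, inv_smul_smul]

/-- A finitely generated extension of `K` in the coarse stabiliser with infinitely many translates
of `F`. -/
theorem fg_case (hG : Geo Γ G B) (hF : CC Γ K F) (hinf : F.Infinite) (S : Set G) (hS : S.Finite)
    (hSc : S ⊆ cst hG F)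
    (htr : {X | ∃ g ∈ Subgroup.closure ((K : Set G) ∪ S), X = g • F}.Infinite) :
    ∃ g ∈ cst hG F, ∃ u ∈ K, Commute g u ∧ (∀ a b : ℤ, g ^ a * u ^ b = 1 → a = 0 ∧ b = 0) ∧
      ∀ n : ℤ, g ^ n ∈ K → n = 0 := by
  have hne := hinf.nonempty
  obtain ⟨H, hH⟩ : ∃ H, H = Subgroup.closure ((K : Set G) ∪ S) := ⟨_, rfl⟩
  have hHc : H ≤ cst hG F := by
    rw [hH, Subgroup.closure_le]
    rintro x (hx | hx)
    · exact hF.le_cst hG hx
    · exact hSc hx
  obtain ⟨T, hT, hTs⟩ := orbits_fin hG hF hne S hS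
  rw [← hH] at htr hTs
  obtain ⟨D, hD⟩ := nested_pair hG
  obtain ⟨g, hg, hfar⟩ := far hG hF hne hHc htr (D * hT.toFinset.card + 1)
  obtain ⟨x, hx, y, hy, hmin, hsep⟩ := exists_bridge hG.med hF.cv (hF.cv.smul hG g) hne
    (hne.smul_set (a := g))
  obtain ⟨u, hu0, hu1, hu, hadj, hxu, hyu, -⟩ := geod_sides hG.med x y
  have hW : ∀ i < Γ.dist x y, Half Γ (side Γ (u (i + 1)) (u i)) := fun i hi =>
    ⟨_, _, (hadj i hi).symm, rfl⟩
  obtain ⟨i, hi, h, hh, hsk⟩ := hD hT.toFinset H u (Γ.dist x y) (by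
    have := hfar x hx y hy
    omega) hu (fun i hi => by
    obtain ⟨h1, h2⟩ := hsep _ (hW i hi) (hxu i hi) (hyu i hi)
    obtain ⟨v, hv, hvT⟩ := hTs g hg _ (hW i hi) ⟨x, hx, h1 x hx⟩ h2
    exact ⟨v, hv, hT.mem_toFinset.2 hvT⟩)
  obtain ⟨h1, h2⟩ := hsep _ (hW i hi) (hxu i hi) (hyu i hi)
  obtain ⟨n, hn⟩ := hG.degree
  have hKH : K ≤ H := fun k hk => by
    rw [hH]
    exact Subgroup.subset_closure (Or.inl hk)
  suffices hres : Flat Γ H K (side Γ (u (i + 1)) (u i)) by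
    obtain ⟨g', hg', u', hu', e1, e2, W', e3, e4, e5⟩ := hres
    refine ⟨g', hHc hg', u', hu', e1, e2, fun n hn => ?_⟩
    exact no_fix hG hne e3 e4 (fun x hx hxW => h1 x hx (e5 hxW)) (hF.smul_eq hn)
  refine core hG H n K F h _ hKH hh hF hinf (fun x _ s hs => hn x s fun u hu => (hs u hu).2)
    (hHc hh) (hW i hi) hsk h1 ?_
  -- the orbit of the half-space is finite
  have h3 : FO K (g • F) := (FO.self hF).smul hG hF hne (hHc hg)
  have h4 : ∀ X : Set V, ∃ y : V, X.Nonempty → y ∈ X := fun X => by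
    by_cases hX : X.Nonempty
    · obtain ⟨y, hy⟩ := hX
      exact ⟨y, fun _ => hy⟩
    · exact ⟨x, fun h => absurd h hX⟩
  choose f hf using h4
  refine (h3.biUnion fun X _ => sep_fin hG.med (f X) x).subset ?_
  rintro _ ⟨k, hk, rfl⟩
  refine Set.mem_biUnion (show k • g • F ∈ _ from ⟨k, hk, rfl⟩) ⟨(hW i hi).smul hG k, ?_, ?_⟩
  · have h5 : f (k • g • F) ∈ k • g • F := hf _ (hne.smul_set.smul_set)
    obtain ⟨w, hw, he⟩ := Set.mem_smul_set.1 h5
    rw [← he]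
    exact Set.smul_mem_smul_set (h2 w hw)
  · intro h5
    rw [Set.mem_smul_set_iff_inv_smul_mem] at h5
    exact h1 _ (hF.inv _ (K.inv_mem hk) x hx) h5

/-- If there are finitely many translates of `F` then `K` has finite index. -/
theorem index_fin (hG : Geo Γ G B) (hF : CC Γ K F) (hne : F.Nonempty) {H : Subgroup G}
    (hfin : {X | ∃ g ∈ H, X = g • F}.Finite) :
    ∃ R : Set G, R.Finite ∧ ∀ g ∈ H, ∃ s ∈ R, ∃ κ ∈ K, g = s * κ := by
  obtain ⟨x0, hx0⟩ := hne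
  obtain ⟨R, hR, hRs⟩ := near_fin hG hF x0 0
  have h1 : ∀ X : Set V, ∃ f : G, (∃ g ∈ H, X = g • F) → X = f • F := fun X => by
    by_cases hX : ∃ g ∈ H, X = g • F
    · obtain ⟨g, -, hg⟩ := hX
      exact ⟨g, fun _ => hg⟩
    · exact ⟨1, fun h => absurd h hX⟩
  choose f hf using h1
  refine ⟨⋃ X ∈ {X | ∃ g ∈ H, X = g • F}, (fun s => f X * s) '' R,
    hfin.biUnion fun X _ => hR.image _, fun g hg => ?_⟩
  have hX : g • F ∈ {X | ∃ g ∈ H, X = g • F} := ⟨g, hg, rfl⟩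
  have h2 := hf _ hX
  obtain ⟨s, hs, κ, hκ, he⟩ := hRs ((f (g • F))⁻¹ * g) ⟨x0, by
    rw [mul_smul]
    nth_rewrite 2 [h2]
    rwa [inv_smul_smul], by simp⟩
  refine ⟨f (g • F) * s, Set.mem_biUnion hX ⟨s, hs, rfl⟩, κ, hκ, ?_⟩
  rw [mul_assoc, ← he, mul_inv_cancel_left]

theorem index_fin' {H : Subgroup G}
    (h : ∃ R : Set G, R.Finite ∧ ∀ g ∈ H, ∃ s ∈ R, ∃ κ ∈ K, g = s * κ) :
    (K.subgroupOf H).FiniteIndex := by
  obtain ⟨R, hR, hRs⟩ := h
  choose f hf κ hκ he using fun g : H => hRs g g.2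
  have : Finite (H ⧸ K.subgroupOf H) := by
    have := hR.to_subtype
    refine Finite.of_injective (β := R) (fun q => ⟨f (Quotient.out q), hf _⟩) fun q q' hq => ?_
    have h1 : f (Quotient.out q) = f (Quotient.out q') := congrArg Subtype.val hq
    rw [← Quotient.out_eq q, ← Quotient.out_eq q']
    refine Quotient.sound ?_
    rw [← Quotient.eq_iff_equiv] 
    show (QuotientGroup.mk (Quotient.out q) : H ⧸ K.subgroupOf H) =
      QuotientGroup.mk (Quotient.out q')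
    rw [QuotientGroup.eq, Subgroup.mem_subgroupOf]
    have e1 := he (Quotient.out q)
    have e2 := he (Quotient.out q')
    rw [← h1] at e2
    have : (((Quotient.out q)⁻¹ * Quotient.out q' : H) : G) =
        (κ (Quotient.out q))⁻¹ * κ (Quotient.out q') := by
      rw [Subgroup.coe_mul, Subgroup.coe_inv, e1, e2]
      group
    rw [this]
    exact K.mul_mem (K.inv_mem (hκ _)) (hκ _)
  exact Subgroup.finiteIndex_of_finite_quotient

end Pool.Agent.H6.CM
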