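import Pool.Agent.H6.CM.Zlem

/-!
# The core argument: elements of the coarse stabiliser which skew a half-space away from `F`
-/

set_option autoImplicit false

namespace Pool.Agent.H6.CM

open Set
open scoped Pointwise

variable {V : Type*} {Γ : SimpleGraph V} {G : Type*} [Group G] [MulAction G V] {B : Set V}
variable {K : Subgroup G} {F : Set V}

theorem geod (h : IsMedian Γ) {a b : V} {k : ℕ} (hab : Γ.dist a b = k) : ∃ u : ℕ → V,
    u 0 = a ∧ u k = b ∧ ∀ i j, i ≤ j → j ≤ k → Γ.dist (u i) (u j) = j - i := by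
  obtain ⟨p, hp⟩ := h.1.exists_walk_length_eq_dist a b
  rw [hab] at hp
  have hadj : ∀ i < k, Γ.Adj (p.getVert i) (p.getVert (i + 1)) := fun i hi =>
    p.adj_getVert_succ (by omega)
  have hle : ∀ i j : ℕ, i + j ≤ k → Γ.dist (p.getVert i) (p.getVert (i + j)) ≤ j := by
    intro i j
    induction j with
    | zero => intro _; rw [add_zero, SimpleGraph.dist_self]
    | succ j ih =>
      intro hj
      have h1 := ih (by omega)
      have h2 := d1 (hadj (i + j) (by omega))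
      have h3 := h.1.dist_triangle (u := p.getVert i) (v := p.getVert (i + j))
        (w := p.getVert (i + j + 1))
      rw [← add_assoc]
      omega
  have h0 : p.getVert 0 = a := p.getVert_zero
  have hk : p.getVert k = b := by rw [← hp]; exact p.getVert_length
  refine ⟨p.getVert, h0, hk, fun i j hij hj => ?_⟩
  have h1 := hle 0 i (by omega)
  have h2 := hle i (j - i) (by omega)
  have h3 := hle j (k - j) (by omega)
  rw [zero_add, h0] at h1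
  rw [show i + (j - i) = j by omega] at h2
  rw [show j + (k - j) = k by omega, hk] at h3
  have h4 := h.1.dist_triangle (u := a) (v := p.getVert i) (w := b)
  have h5 := h.1.dist_triangle (u := p.getVert i) (v := p.getVert j) (w := b)
  omega

/-- An infinite `F` is crossed by a half-space which is skewered by an element of `K`. -/
theorem skew_in_F (hG : Geo Γ G B) (hF : CC Γ K F) (hinf : F.Infinite) :
    ∃ k ∈ K, ∃ U, Half Γ U ∧ k • U ⊂ U := by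
  obtain ⟨D, hD⟩ := nested_pair hG
  obtain ⟨T, hT, hcross⟩ := cross_fin hG hF
  obtain ⟨x, hx⟩ := hinf.nonempty
  obtain ⟨y, hy, hd⟩ : ∃ y ∈ F, D * hT.toFinset.card < Γ.dist x y := by
    by_contra hcon
    push Not at hcon
    exact hinf ((hG.ball (D * hT.toFinset.card) x).subset hcon)
  obtain ⟨u, hu0, hu1, hu⟩ := geod hG.med (a := x) (b := y) rfl
  have huF : ∀ i ≤ Γ.dist x y, u i ∈ F := by
    intro i hi
    refine hF.cv x hx y hy _ ?_
    have e1 := hu 0 i (by omega) hi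
    have e2 := hu i _ hi le_rfl
    rw [hu0] at e1
    rw [hu1] at e2
    omega
  have hadj : ∀ i < Γ.dist x y, Γ.Adj (u i) (u (i + 1)) := fun i hi =>
    SimpleGraph.dist_eq_one_iff_adj.1 (by rw [hu i (i + 1) (by omega) (by omega)]; omega)
  obtain ⟨i, hi, k, hk, hsk⟩ := hD hT.toFinset K u (Γ.dist x y) hd hu (fun i hi => by
    obtain ⟨k, hk, hkT⟩ := hcross (side Γ (u (i + 1)) (u i)) ⟨_, _, (hadj i hi).symm, rfl⟩
      ⟨_, huF (i + 1) (by omega), left_mem (hadj i hi).symm⟩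
      ⟨_, huF i hi.le, right_nmem (hadj i hi).symm⟩
    exact ⟨k, hk, hT.mem_toFinset.2 hkT⟩)
  exact ⟨k, hk, _, ⟨_, _, (hadj i hi).symm, rfl⟩, hsk⟩

/-- The half-spaces which cross all sets `c • F` for `c` in the coarse stabiliser of `F`. -/
def HH (hG : Geo Γ G B) (F : Set V) (A : Set V) : Prop :=
  Half Γ A ∧ ∀ c ∈ cst hG F, (∃ x ∈ c • F, x ∈ A) ∧ ∃ x ∈ c • F, x ∉ A

theorem HH.smul (hG : Geo Γ G B) {A : Set V} (hA : HH hG F A) {g : G} (hg : g ∈ cst hG F) :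
    HH hG F (g • A) := by
  refine ⟨hA.1.smul hG g, fun c hc => ?_⟩
  obtain ⟨⟨x, hx, hx'⟩, y, hy, hy'⟩ := hA.2 (g⁻¹ * c) ((cst hG F).mul_mem
    ((cst hG F).inv_mem hg) hc)
  have e : g • (g⁻¹ * c) • F = c • F := by rw [← mul_smul, mul_inv_cancel_left]
  refine ⟨⟨g • x, ?_, Set.smul_mem_smul_set hx'⟩, g • y, ?_, ?_⟩
  · rw [← e]
    exact Set.smul_mem_smul_set hx
  · rw [← e]
    exact Set.smul_mem_smul_set hy
  · rwa [Set.smul_mem_smul_set_iff]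

theorem HH.compl (hG : Geo Γ G B) {A : Set V} (hA : HH hG F A) : HH hG F Aᶜ := by
  refine ⟨hA.1.compl hG.med, fun c hc => ?_⟩
  obtain ⟨⟨x, hx, hx'⟩, y, hy, hy'⟩ := hA.2 c hc
  exact ⟨⟨y, hy, hy'⟩, x, hx, fun h => h hx'⟩

theorem HH.cross (hG : Geo Γ G B) {A : Set V} (hA : HH hG F A) :
    (∃ x ∈ F, x ∈ A) ∧ ∃ x ∈ F, x ∉ A := by
  have := hA.2 1 (cst hG F).one_mem
  rwa [one_smul] at this

/-- A half-space skewered by an element of `K` is in `HH`. -/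
theorem HH.of_skew (hG : Geo Γ G B) (hF : CC Γ K F) (hne : F.Nonempty) {k : G} (hk : k ∈ K)
    {U : Set V} (hU : Half Γ U) (hkU : k • U ⊂ U) : HH hG F U := by
  refine ⟨hU, fun c hc => ?_⟩
  obtain ⟨m, hm, hfix⟩ := ((FO.self hF).smul hG hF hne hc).pow hk
  obtain ⟨v, hv⟩ : (c • F).Nonempty := hne.smul_set
  have hfix' : k ^ (m : ℤ) • c • F = c • F := by rwa [zpow_natCast]
  obtain ⟨n1, h1⟩ := skew_in hG hU hkU v
  obtain ⟨n2, h2⟩ := skew_out hG hU hkU v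
  have e1 := zpow_fix (W := U) hfix' n1
  have e2 := zpow_fix (W := U) hfix' n2
  refine ⟨⟨k ^ ((m : ℤ) * n1) • v, ?_, ?_⟩, k ^ (-((m : ℤ) * n2)) • v, ?_, ?_⟩
  · have := Set.smul_mem_smul_set (a := k ^ ((m : ℤ) * n1)) hv
    rwa [e1] at this
  · have := h1 (m * n1) (by nlinarith)
    rwa [zpow_neg, Set.mem_inv_smul_set_iff] at this
  · have := Set.smul_mem_smul_set (a := k ^ (-((m : ℤ) * n2))) hv
    rw [zpow_neg] at this ⊢
    nth_rewrite 1 [← e2] at this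
    rwa [inv_smul_smul] at this
  · intro h3
    refine h2 (m * n2) (by nlinarith) ?_
    rwa [Set.mem_smul_set_iff_inv_smul_mem, ← zpow_neg]

/-- All four intersections are nonempty. -/
def Crosses (P Q : Set V) : Prop :=
  (P ∩ Q).Nonempty ∧ (P ∩ Qᶜ).Nonempty ∧ (Pᶜ ∩ Q).Nonempty ∧ (Pᶜ ∩ Qᶜ).Nonempty

theorem cross_finite (hG : Geo Γ G B) (hF : CC Γ K F) {A : Set V} (hA : HH hG F A)
    (hfin : (F ∩ bd Γ A).Finite) : {Q | HH hG F Q ∧ Crosses A Q}.Finite := by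
  refine (hfin.biUnion fun x _ => hfin.biUnion fun y _ => sep_fin hG.med x y).subset ?_
  rintro Q ⟨hQ, c1, c2, c3, c4⟩
  obtain ⟨⟨a1, a1F, a1A⟩, a2, a2F, a2A⟩ := hA.cross hG
  obtain ⟨⟨q1, q1F, q1Q⟩, q2, q2F, q2Q⟩ := hQ.cross hG
  have cvA := hA.1.cv hG.med
  have cvA' := (hA.1.compl hG.med).cv hG.med
  have cvQ := hQ.1.cv hG.med
  have cvQ' := (hQ.1.compl hG.med).cv hG.med
  rw [inter_comm] at c1 c2 c3 c4
  -- an edge in `F ∩ Q`
  obtain ⟨u1, u1F, u1Q, u1A⟩ := helly_sets hG.med hF.cv cvQ cvA ⟨q1, q1F, q1Q⟩ c1 ⟨a1, a1F, a1A⟩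
  obtain ⟨u2, u2F, u2Q, u2A⟩ := helly_sets hG.med hF.cv cvQ cvA' ⟨q1, q1F, q1Q⟩ c3
    ⟨a2, a2F, a2A⟩
  obtain ⟨x, ⟨hx1, hx2⟩, x', -, hxx, hxA, hxA'⟩ := exists_edge hG.med (hF.cv.inter cvQ)
    (A := A) ⟨u1F, u1Q⟩ u1A ⟨u2F, u2Q⟩ u2A
  obtain ⟨w1, w1F, w1Q, w1A⟩ := helly_sets hG.med hF.cv cvQ' cvA ⟨q2, q2F, q2Q⟩ c2 ⟨a1, a1F, a1A⟩
  obtain ⟨w2, w2F, w2Q, w2A⟩ := helly_sets hG.med hF.cv cvQ' cvA' ⟨q2, q2F, q2Q⟩ c4
    ⟨a2, a2F, a2A⟩
  obtain ⟨y, ⟨hy1, hy2⟩, y', -, hyy, hyA, hyA'⟩ := exists_edge hG.med (hF.cv.inter cvQ')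
    (A := A) ⟨w1F, w1Q⟩ w1A ⟨w2F, w2Q⟩ w2A
  exact Set.mem_biUnion (show x ∈ F ∩ bd Γ A from ⟨hx1, hxA, x', hxx, hxA'⟩)
    (Set.mem_biUnion (show y ∈ F ∩ bd Γ A from ⟨hy1, hyA, y', hyy, hyA'⟩) ⟨hQ.1, hx2, hy2⟩)

theorem lim (hG : Geo Γ G B) {P : Set V} (hP : HH hG F P)
    (hfin : {Q | HH hG F Q ∧ Crosses P Q}.Finite) {Q : ℕ → Set V}
    (hQ : ∀ n, HH hG F (Q n)) (hinj : Function.Injective Q) (hout : ∀ v, ∃ n, ∀ m ≥ n, v ∉ Q m)
    (hPQ : ∀ n, (P ∩ Q n).Nonempty) : ∃ n, Q n ⊆ P := by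
  obtain ⟨p, hp⟩ := hP.1.nonempty
  obtain ⟨q, hq⟩ := hP.1.cononempty
  obtain ⟨n1, h1⟩ := hout p
  obtain ⟨n2, h2⟩ := hout q
  have hS : {n | Crosses P (Q n)}.Finite := by
    refine Set.Finite.of_finite_image (f := Q) (hfin.subset ?_) hinj.injOn
    rintro _ ⟨n, hn, rfl⟩
    exact ⟨hQ n, hn⟩
  obtain ⟨n3, h3⟩ := hS.bddAbove
  refine ⟨n1 + n2 + n3 + 1, ?_⟩
  by_contra hcon
  rw [Set.not_subset] at hcon
  obtain ⟨w, hw, hwP⟩ := hcon
  have := h3 (show n1 + n2 + n3 + 1 ∈ {n | Crosses P (Q n)} from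
    ⟨hPQ _, ⟨p, hp, h1 _ (by omega)⟩, ⟨w, hwP, hw⟩, ⟨q, hq, h2 _ (by omega)⟩⟩)
  omega

theorem close_bd (h : IsMedian Γ) {F F' A : Set V} (hF : Cv Γ F) (hF' : Cv Γ F')
    (hA : Half Γ A) (hne : (F ∩ bd Γ A).Nonempty) (hne' : (F' ∩ bd Γ A).Nonempty)
    (hc : Close Γ F F') : Close Γ (F ∩ bd Γ A) (F' ∩ bd Γ A) := by
  have key : ∀ {F F' : Set V} {c : ℕ}, Cv Γ F' → (F' ∩ bd Γ A).Nonempty →
      (∀ x ∈ F, ∃ y ∈ F', Γ.dist x y ≤ c) →
      ∀ x ∈ F ∩ bd Γ A, ∃ y ∈ F' ∩ bd Γ A, Γ.dist x y ≤ c := by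
    intro F F' c hF' hne' hc x hx
    obtain ⟨w, hw, hwA⟩ := hne'
    obtain ⟨p, hp⟩ := exists_gate h hF' ⟨w, hw⟩ x
    obtain ⟨y, hy, hd⟩ := hc x hx.1
    refine ⟨p, ⟨hp.1, bd_cv h hA x hx.2 w hwA p (hp.2 w hw)⟩, ?_⟩
    have := hp.2 y hy
    omega
  obtain ⟨c, h1, h2⟩ := hc
  refine ⟨c, key hF' hne' h1, fun y hy => ?_⟩
  obtain ⟨x, hx, hd⟩ := key (c := c) hF hne (fun y hy => by
    obtain ⟨x, hx, hd⟩ := h2 y hy
    exact ⟨x, hx, by rwa [SimpleGraph.dist_comm]⟩) y hy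
  exact ⟨x, hx, by rwa [SimpleGraph.dist_comm]⟩

/-- The case in which the walls of `F` have finite traces. -/
theorem case_fin (hG : Geo Γ G B) (hF : CC Γ K F) (hinf : F.Infinite)
    (hfin : ∀ A, HH hG F A → (F ∩ bd Γ A).Finite) {H : Subgroup G} (hKH : K ≤ H) {h : G}
    (hhH : h ∈ H) (hh : h ∈ cst hG F) {W : Set V}
    (hW : Half Γ W) (hhW : h • W ⊂ W) (hFW : ∀ x ∈ F, x ∉ W) (hFO : FO K W) :
    Flat Γ H K W := by
  have hne := hinf.nonempty
  obtain ⟨k, hk, U, hU, hkU⟩ := skew_in_F hG hF hinf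
  have hUH := HH.of_skew hG hF hne hk hU hkU
  have hkc : ∀ i : ℤ, k ^ i ∈ cst hG F := fun i => (cst hG F).zpow_mem (hF.le_cst hG hk) i
  -- the good case
  have good : ∀ h' : G, h' ∈ H → h' ∈ cst hG F → h' • W ⊂ W →
      (∃ a N : ℕ, h' • k ^ (a : ℤ) • U ⊆ k ^ (-(N : ℤ)) • U) → Flat Γ H K W := by
    rintro h' hh'H hh' hhW' ⟨a, N, haN⟩
    obtain ⟨n0, hn0, hfix⟩ := (hFO.smul hG hF hne hh').pow hk
    obtain ⟨n, hn⟩ : ∃ n : ℤ, n = n0 * ((N + a + 1 : ℕ) : ℤ) := ⟨_, rfl⟩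
    have hn1 : (N : ℤ) + a + 1 ≤ n := by
      rw [hn]
      push_cast
      have : (1 : ℤ) ≤ n0 := by exact_mod_cast hn0
      nlinarith
    have hfix' : k ^ (n0 : ℤ) • h' • W = h' • W := by rwa [zpow_natCast]
    have e1 : k ^ n • h' • W = h' • W := by
      rw [hn]
      exact zpow_fix (W := W) hfix' _
    have hg : k ^ n * h' ∈ cst hG F := (cst hG F).mul_mem (hkc n) hh'
    have hA : HH hG F (k ^ (a : ℤ) • U) := hUH.smul hG (hkc _)
    refine z2_of_skew hG hF hne (H.mul_mem (H.zpow_mem (hKH hk) n) hh'H) hg hA.1 (fun i => hA.2 _ ((cst hG F).zpow_mem hg i)) ?_ hW ?_ hFW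
    · rw [mul_smul]
      refine lt_of_le_of_lt (Set.smul_set_mono (a := k ^ n) haN) ?_
      rw [← mul_smul, ← zpow_add]
      exact skew_lt' hkU (by omega)
    · rw [mul_smul, e1]
      exact hhW'
  by_cases g1 : ∃ a N : ℕ, h • k ^ (a : ℤ) • U ⊆ k ^ (-(N : ℤ)) • U
  · exact good h hhH hh hhW g1
  have hhW2 : (h * h) • W ⊂ W := by
    rw [mul_smul]
    exact lt_trans (smul_ssubset hhW) hhW
  have hh2 : h * h ∈ cst hG F := (cst hG F).mul_mem hh hh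
  by_cases g2 : ∃ a N : ℕ, (h * h) • k ^ (a : ℤ) • U ⊆ k ^ (-(N : ℤ)) • U
  · exact good _ (H.mul_mem hhH hhH) hh2 hhW2 g2
  exfalso
  have hQ : ∀ N : ℕ, HH hG F (k ^ (-(N : ℤ)) • U)ᶜ := fun N => (hUH.smul hG (hkc _)).compl hG
  have hQinj : Function.Injective fun N : ℕ => (k ^ (-(N : ℤ)) • U)ᶜ := fun N N' he => by
    have := skew_inj hkU (compl_injective he)
    omega
  have hQout : ∀ v : V, ∃ n, ∀ m ≥ n, v ∉ (k ^ (-((m : ℕ) : ℤ)) • U)ᶜ := fun v => by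
    obtain ⟨n, hn⟩ := skew_in hG hU hkU v
    exact ⟨n, fun m hm h1 => h1 (hn m (by exact_mod_cast hm))⟩
  have alpha : ∀ h' : G, h' ∈ cst hG F →
      (¬ ∃ a N : ℕ, h' • k ^ (a : ℤ) • U ⊆ k ^ (-(N : ℤ)) • U) → ∀ a : ℕ,
      ∃ N : ℕ, (k ^ (-(N : ℤ)) • U)ᶜ ⊆ h' • k ^ (a : ℤ) • U := by
    intro h' hh' hno a
    have hP : HH hG F (h' • k ^ (a : ℤ) • U) := (hUH.smul hG (hkc _)).smul hG hh'
    refine lim hG hP (cross_finite hG hF hP (hfin _ hP)) hQ hQinj hQout fun N => ?_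
    by_contra hcon
    rw [Set.not_nonempty_iff_eq_empty, ← Set.disjoint_iff_inter_eq_empty,
      Set.disjoint_compl_right_iff_subset] at hcon
    exact hno ⟨a, N, hcon⟩
  have beta : ∃ a : ℕ, h • k ^ (a : ℤ) • U ⊆ (k ^ (-((0 : ℕ) : ℤ)) • U)ᶜ := by
    refine lim hG (hQ 0) (cross_finite hG hF (hQ 0) (hfin _ (hQ 0)))
      (Q := fun a : ℕ => h • k ^ (a : ℤ) • U) (fun a => (hUH.smul hG (hkc _)).smul hG hh)
      (fun a a' he => ?_) (fun v => ?_) fun a => ?_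
    · have h1 := congrArg (fun A => h⁻¹ • A) he
      simp only [inv_smul_smul] at h1
      have := skew_inj hkU h1
      omega
    · obtain ⟨n, hn⟩ := skew_out hG hU hkU (h⁻¹ • v)
      refine ⟨n, fun m hm h1 => hn m (by exact_mod_cast hm) ?_⟩
      rwa [Set.mem_smul_set_iff_inv_smul_mem] at h1
    · by_contra hcon
      rw [inter_comm, Set.not_nonempty_iff_eq_empty, ← Set.disjoint_iff_inter_eq_empty,
        Set.disjoint_compl_right_iff_subset] at hcon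
      exact g1 ⟨a, 0, hcon⟩
  obtain ⟨a, ha⟩ := beta
  obtain ⟨N, hN⟩ := alpha (h * h) hh2 g2 a
  obtain ⟨N', hN'⟩ := alpha h hh g1 0
  rw [Nat.cast_zero, neg_zero, zpow_zero, one_smul] at ha
  rw [Nat.cast_zero, zpow_zero, one_smul] at hN'
  have hN2 : (k ^ (-(N : ℤ)) • U)ᶜ ⊆ (h • U)ᶜ := by
    refine hN.trans ?_
    rw [mul_smul, ← Set.smul_set_compl]
    exact Set.smul_set_mono ha
  obtain ⟨v, hv⟩ : ∃ v, v ∉ k ^ (-((N + N' : ℕ) : ℤ)) • U := (hU.smul hG _).cononempty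
  have h1 : v ∈ (k ^ (-(N : ℤ)) • U)ᶜ := fun h2 => hv (skew_le hkU (by push_cast; omega) h2)
  have h2 : v ∈ (k ^ (-(N' : ℤ)) • U)ᶜ := fun h2 => hv (skew_le hkU (by push_cast; omega) h2)
  exact hN2 h1 (hN' h2)

/-- **The core theorem.** -/
theorem core (hG : Geo Γ G B) (H : Subgroup G) (n : ℕ) :
    ∀ (K : Subgroup G) (F : Set V) (h : G) (W : Set V), K ≤ H → h ∈ H →
    CC Γ K F → F.Infinite →
    (∀ x ∈ F, ∀ s : Finset V, (∀ u ∈ s, u ∈ F ∧ Γ.Adj x u) → s.card ≤ n) →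
    h ∈ cst hG F → Half Γ W → h • W ⊂ W → (∀ x ∈ F, x ∉ W) → FO K W → Flat Γ H K W := by
  classical
  induction n with
  | zero =>
    intro K F h W hKH hhH hF hinf hdeg hh hW hhW hFW hFO
    refine case_fin hG hF hinf (fun A hA => ?_) hKH hhH hh hW hhW hFW hFO
    by_contra hcon
    obtain ⟨⟨x, hx, hxA⟩, y, hy, hyA⟩ := hA.cross hG
    obtain ⟨u, hu, v, hv, uv, -, -⟩ := exists_edge hG.med hF.cv hx hxA hy hyA
    have := hdeg u hu {v} (fun w hw => by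
      rw [Finset.mem_singleton] at hw
      subst hw
      exact ⟨hv, uv⟩)
    rw [Finset.card_singleton] at this
    omega
  | succ n ih =>
    intro K F h W hKH hhH hF hinf hdeg hh hW hhW hFW hFO
    by_cases hfin : ∀ A, HH hG F A → (F ∩ bd Γ A).Finite
    · exact case_fin hG hF hinf hfin hKH hhH hh hW hhW hFW hFO
    push Not at hfin
    obtain ⟨A, hA, hAinf⟩ := hfin
    have hne := hinf.nonempty
    -- the pigeonhole principle for the half-spaces `h⁻ⁱ A`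
    obtain ⟨T, hT, hcross⟩ := cross_fin hG (hF.stab hFO)
    have hAi : ∀ i : ℕ, HH hG F ((h ^ i)⁻¹ • A) := fun i =>
      hA.smul hG ((cst hG F).inv_mem ((cst hG F).pow_mem hh i))
    have h1 : ∀ i : ℕ, ∃ κ ∈ K ⊓ MulAction.stabilizer G W, κ • (h ^ i)⁻¹ • A ∈ T := fun i =>
      hcross _ (hAi i).1 ((hAi i).cross hG).1 ((hAi i).cross hG).2
    choose κ hκ hκT using h1
    have hninj : ¬ Function.Injective fun i : ℕ => κ i • (h ^ i)⁻¹ • A := fun hinj =>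
      Set.infinite_range_of_injective hinj (hT.subset (by
        rintro _ ⟨j, rfl⟩
        exact hκT j))
    obtain ⟨j, i, hji, he⟩ : ∃ j i : ℕ, j < i ∧ κ j • (h ^ j)⁻¹ • A = κ i • (h ^ i)⁻¹ • A := by
      unfold Function.Injective at hninj
      push Not at hninj
      obtain ⟨i, j, he, hne⟩ := hninj
      rcases lt_or_gt_of_ne hne with h | h
      · exact ⟨i, j, h, he⟩
      · exact ⟨j, i, h, he.symm⟩
    obtain ⟨k, hk⟩ : ∃ k, k = (κ i)⁻¹ * κ j := ⟨_, rfl⟩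
    have hkK : k ∈ K ⊓ MulAction.stabilizer G W := by
      rw [hk]
      exact Subgroup.mul_mem _ (Subgroup.inv_mem _ (hκ i)) (hκ j)
    have hkW : k • W = W := hkK.2
    have hkA : k • (h ^ j)⁻¹ • A = (h ^ i)⁻¹ • A := by
      rw [hk, mul_smul, he, inv_smul_smul]
    obtain ⟨h', hh'⟩ : ∃ h', h' = h ^ i * k * (h ^ j)⁻¹ := ⟨_, rfl⟩
    have h'A : h' • A = A := by
      rw [hh', mul_smul, mul_smul, hkA, smul_inv_smul]
    have h'W : h' • h ^ j • W = h ^ i • W := by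
      rw [hh', mul_smul, mul_smul, inv_smul_smul, hkW]
    have h'c : h' ∈ cst hG F := by
      rw [hh']
      exact Subgroup.mul_mem _ (Subgroup.mul_mem _ ((cst hG F).pow_mem hh i)
        (hF.le_cst hG hkK.1)) ((cst hG F).inv_mem ((cst hG F).pow_mem hh j))
    have hlt : h ^ i • W ⊂ h ^ j • W := by
      have := skew_lt' hhW (show (j : ℤ) < i by exact_mod_cast hji)
      rwa [zpow_natCast, zpow_natCast] at this
    have hle : h ^ j • W ⊆ W := by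
      have := skew_le hhW (show (0 : ℤ) ≤ j by omega)
      rwa [zpow_natCast, zpow_zero, one_smul] at this
    have e : h' • (F ∩ bd Γ A) = h' • F ∩ bd Γ A := by
      rw [Set.smul_set_inter, smul_bd hG, h'A]
    have h'H : h' ∈ H := by
      rw [hh']
      exact Subgroup.mul_mem _ (Subgroup.mul_mem _ (H.pow_mem hhH i) (hKH hkK.1))
        (H.inv_mem (H.pow_mem hhH j))
    have hres : Flat Γ H (K ⊓ MulAction.stabilizer G A) (h ^ j • W) := by
     refine ih (K ⊓ MulAction.stabilizer G A) (F ∩ bd Γ A) h' (h ^ j • W)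
      (inf_le_left.trans hKH) h'H (hF.bd hG hA.1) hAinf ?_
      ?_ (hW.smul hG _) (by rw [h'W]; exact hlt) (fun x hx hxW => hFW x hx.1 (hle hxW))
      ((hFO.smul hG hF hne ((cst hG F).pow_mem hh j)).mono inf_le_left)
     · rintro x ⟨hx, hxA, x', hxx, hx'A⟩ s hs
       -- the neighbour across the wall is in `F`
       obtain ⟨-, y, hy, hyA⟩ := hA.cross hG
       have hx'F : x' ∈ F := by
         have e1 := half_edge hG.med hA.1 hxx hxA hx'A
         have h2 : ¬ Γ.dist y x < Γ.dist y x' := fun h3 => hyA (by rw [e1]; exact h3)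
         have h3 := step hG.med hxx y
         refine hF.cv x hx y hy x' ?_
         rw [d1 hxx]
         have c1 : Γ.dist x' y = Γ.dist y x' := SimpleGraph.dist_comm
         have c2 : Γ.dist x y = Γ.dist y x := SimpleGraph.dist_comm
         omega
       have hns : x' ∉ s := fun h2 => hx'A (hs x' h2).1.2.1
       have := hdeg x hx (insert x' s) (fun u hu => by
         rw [Finset.mem_insert] at hu
         rcases hu with rfl | hu
         · exact ⟨hx'F, hxx⟩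
         · exact ⟨(hs u hu).1.1, (hs u hu).2⟩)
       rw [Finset.card_insert_of_notMem hns] at this
       omega
     · rw [mem_cst, e]
       refine close_bd hG.med hF.cv (hF.cv.smul hG h') hA.1 hAinf.nonempty ?_ h'c
       rw [← e]
       exact hAinf.nonempty.smul_set
    obtain ⟨g, hg, u, hu, h1, h2, W', h3, h4, h5⟩ := hres
    exact ⟨g, hg, u, hu.1, h1, h2, W', h3, h4, h5.trans hle⟩

end Pool.Agent.H6.CM
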