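import Pool.Agent.H6.CM.Core

/-!
# Finite subgroups are conjugate into a finite set
-/

set_option autoImplicit false

namespace Pool.Agent.H6.CM

open Set
open scoped Pointwise

variable {V : Type*} {Γ : SimpleGraph V} {G : Type*} [Group G] [MulAction G V] {B : Set V}

theorem helly_finset (h : IsMedian Γ) {ι : Type*} [DecidableEq ι] (S : ι → Set V)
    (hS : ∀ i, Cv Γ (S i)) (s : Finset ι) : (∀ i ∈ s, ∀ j ∈ s, (S i ∩ S j).Nonempty) →
    ∀ C : Set V, Cv Γ C → C.Nonempty → (∀ i ∈ s, (C ∩ S i).Nonempty) →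
      ∃ v ∈ C, ∀ i ∈ s, v ∈ S i := by
  induction s using Finset.induction_on with
  | empty =>
    intro _ C _ hne _
    obtain ⟨v, hv⟩ := hne
    exact ⟨v, hv, by simp⟩
  | insert a s ha ih =>
    intro hpair C hC hne hCS
    obtain ⟨v, hv, hvs⟩ := ih (fun i hi j hj => hpair i (Finset.mem_insert_of_mem hi) j
      (Finset.mem_insert_of_mem hj)) (C ∩ S a) (hC.inter (hS a))
      (hCS a (Finset.mem_insert_self a s)) (fun i hi => by
        obtain ⟨w, w1, w2, w3⟩ := helly_sets h hC (hS a) (hS i)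
          (hCS a (Finset.mem_insert_self a s))
          (hpair a (Finset.mem_insert_self a s) i (Finset.mem_insert_of_mem hi))
          (hCS i (Finset.mem_insert_of_mem hi))
        exact ⟨w, ⟨w1, w2⟩, w3⟩)
    refine ⟨v, hv.1, fun i hi => ?_⟩
    rcases Finset.mem_insert.1 hi with rfl | hi
    · exact hv.2
    · exact hvs i hi

/-- The half-spaces of the edges of a geodesic. -/
theorem geod_sides (h : IsMedian Γ) (a b : V) : ∃ u : ℕ → V, u 0 = a ∧ u (Γ.dist a b) = b ∧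
    (∀ i j, i ≤ j → j ≤ Γ.dist a b → Γ.dist (u i) (u j) = j - i) ∧
    (∀ i < Γ.dist a b, Γ.Adj (u i) (u (i + 1))) ∧
    (∀ i < Γ.dist a b, a ∉ side Γ (u (i + 1)) (u i)) ∧
    (∀ i < Γ.dist a b, b ∈ side Γ (u (i + 1)) (u i)) ∧
    ∀ i < Γ.dist a b, ∀ j < Γ.dist a b,
      side Γ (u (i + 1)) (u i) = side Γ (u (j + 1)) (u j) → i = j := by
  obtain ⟨u, hu0, hu1, hu⟩ := geod h (a := a) (b := b) rfl
  have hadj : ∀ i < Γ.dist a b, Γ.Adj (u i) (u (i + 1)) := fun i hi =>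
    SimpleGraph.dist_eq_one_iff_adj.1 (by rw [hu i (i + 1) (by omega) (by omega)]; omega)
  refine ⟨u, hu0, hu1, hu, hadj, fun i hi h1 => ?_, fun i hi => ?_, fun i hi j hj hij => ?_⟩
  · have h2 : Γ.dist a (u (i + 1)) < Γ.dist a (u i) := h1
    have e1 := hu 0 (i + 1) (by omega) (by omega)
    have e2 := hu 0 i (by omega) (by omega)
    rw [hu0] at e1 e2
    omega
  · show Γ.dist b (u (i + 1)) < Γ.dist b (u i)
    have e1 := hu (i + 1) _ (by omega) le_rfl
    have e2 := hu i _ (by omega) le_rfl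
    rw [hu1] at e1 e2
    rw [SimpleGraph.dist_comm, SimpleGraph.dist_comm (u := b) (v := u i)]
    omega
  · have key : ∀ i j : ℕ, i < j → j < Γ.dist a b →
        side Γ (u (i + 1)) (u i) ≠ side Γ (u (j + 1)) (u j) := by
      intro i j hij hj he
      have h1 : u (i + 1) ∈ side Γ (u (i + 1)) (u i) := left_mem (hadj i (by omega)).symm
      rw [he] at h1
      have h2 : Γ.dist (u (i + 1)) (u (j + 1)) < Γ.dist (u (i + 1)) (u j) := h1
      rw [hu _ _ (by omega) (by omega), hu _ _ (by omega) (by omega)] at h2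
      omega
    rcases lt_trichotomy i j with h1 | h1 | h1
    · exact absurd hij (key i j h1 hj)
    · exact h1
    · exact absurd hij.symm (key j i h1 hi)

/-- A finite group acting on a median graph preserves a finite convex set. -/
theorem exists_inv_convex (hG : Geo Γ G B) (A : Subgroup G) (hA : (A : Set G).Finite) :
    ∃ C : Set V, C.Finite ∧ C.Nonempty ∧ Cv Γ C ∧ ∀ a ∈ A, ∀ x ∈ C, a • x ∈ C := by
  classical
  obtain ⟨x0⟩ : Nonempty V := hG.med.1.nonempty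
  set O : Set V := (fun a : G => a • x0) '' (A : Set G) with hO
  have hOf : O.Finite := hA.image _
  have hx0 : x0 ∈ O := ⟨1, A.one_mem, one_smul _ _⟩
  set S : Set (Set V) := ⋃ o ∈ O, ⋃ o' ∈ O, {U | Half Γ U ∧ o ∈ U ∧ o' ∉ U} with hS
  have hSf : S.Finite := hOf.biUnion fun o _ => hOf.biUnion fun o' _ => sep_fin hG.med o o'
  refine ⟨{v | ∀ U, Half Γ U → (∀ o ∈ O, o ∈ U) → v ∈ U}, ?_, ⟨x0, fun U _ h => h _ hx0⟩,
    fun x hx y hy m hm U hU hOU => hU.cv hG.med x (hx U hU hOU) y (hy U hU hOU) m hm, ?_⟩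
  · refine (hG.ball hSf.toFinset.card x0).subset fun v hv => ?_
    show Γ.dist x0 v ≤ _
    obtain ⟨u, -, -, -, hadj, hu1, hu2, hu3⟩ := geod_sides hG.med x0 v
    rw [← Finset.card_range (Γ.dist x0 v)]
    refine Finset.card_le_card_of_injOn (fun i => side Γ (u (i + 1)) (u i)) ?_ ?_
    · intro i hi
      rw [Finset.mem_coe, Finset.mem_range] at hi
      rw [Finset.mem_coe, Set.Finite.mem_toFinset]
      have hH : Half Γ (side Γ (u (i + 1)) (u i)) := ⟨_, _, (hadj i hi).symm, rfl⟩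
      by_contra hcon
      refine hv (side Γ (u (i + 1)) (u i))ᶜ (hH.compl hG.med) (fun o ho hoU => hcon ?_) (hu2 i hi)
      exact Set.mem_biUnion ho (Set.mem_biUnion hx0 ⟨hH, hoU, hu1 i hi⟩)
    · intro i hi j hj hij
      rw [Finset.mem_coe, Finset.mem_range] at hi hj
      exact hu3 i hi j hj hij
  · intro a ha x hx U hU hOU
    have h1 := hx (a⁻¹ • U) (hU.smul hG _) (fun o ho => by
      rw [Set.mem_inv_smul_set_iff]
      obtain ⟨b, hb, rfl⟩ := ho
      refine hOU _ ⟨a * b, A.mul_mem ha hb, ?_⟩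
      exact mul_smul _ _ _)
    rwa [Set.mem_inv_smul_set_iff] at h1

theorem smul_eq_of_inv {A : Subgroup G} {C : Set V} (hC : ∀ a ∈ A, ∀ x ∈ C, a • x ∈ C) {a : G}
    (ha : a ∈ A) : a • C = C := by
  ext x
  rw [Set.mem_smul_set_iff_inv_smul_mem]
  refine ⟨fun h => ?_, fun h => hC _ (A.inv_mem ha) _ h⟩
  have := hC a ha _ h
  rwa [smul_inv_smul] at this

/-- In a minimal finite invariant convex set all half-spaces have the same number of vertices. -/
theorem balanced (hG : Geo Γ G B) (A : Subgroup G) (hA : (A : Set G).Finite) : ∃ C : Set V,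
    C.Finite ∧ C.Nonempty ∧ Cv Γ C ∧ (∀ a ∈ A, ∀ x ∈ C, a • x ∈ C) ∧
    ∀ P Q, Half Γ P → Half Γ Q → (C ∩ P).Nonempty → (C ∩ Pᶜ).Nonempty → (C ∩ Q).Nonempty →
      (C ∩ Qᶜ).Nonempty → C ∩ P ⊆ C ∩ Q → P = Q := by
  classical
  have hex : ∃ n, ∃ C : Set V, C.Finite ∧ C.Nonempty ∧ Cv Γ C ∧ (∀ a ∈ A, ∀ x ∈ C, a • x ∈ C) ∧
      C.ncard = n := by
    obtain ⟨C, h1, h2, h3, h4⟩ := exists_inv_convex hG A hA
    exact ⟨_, C, h1, h2, h3, h4, rfl⟩
  obtain ⟨C, hCf, hCne, hCc, hCi, hCn⟩ := Nat.find_spec hex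
  have hmin : ∀ C' : Set V, C' ⊂ C → C'.Nonempty → Cv Γ C' →
      (∀ a ∈ A, ∀ x ∈ C', a • x ∈ C') → False := by
    intro C' h1 h2 h3 h4
    have h5 := Nat.find_min' hex ⟨C', hCf.subset h1.1, h2, h3, h4, rfl⟩
    have h6 := Set.ncard_lt_ncard h1 hCf
    omega
  refine ⟨C, hCf, hCne, hCc, hCi, fun P Q hP hQ hP1 hP2 hQ1 hQ2 hPQ => ?_⟩
  have hCs := fun {a : G} (ha : a ∈ A) => smul_eq_of_inv hCi ha
  -- the half-space with the least number of vertices in `C`
  have hex2 : ∃ n, ∃ U, Half Γ U ∧ (C ∩ U).Nonempty ∧ (C ∩ Uᶜ).Nonempty ∧ (C ∩ U).ncard = n :=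
    ⟨_, P, hP, hP1, hP2, rfl⟩
  obtain ⟨U, hU, hU1, hU2, hUn⟩ := Nat.find_spec hex2
  have hUmin : ∀ U', Half Γ U' → (C ∩ U').Nonempty → (C ∩ U'ᶜ).Nonempty →
      (C ∩ U).ncard ≤ (C ∩ U').ncard := by
    intro U' h1 h2 h3
    rw [hUn]
    exact Nat.find_min' hex2 ⟨U', h1, h2, h3, rfl⟩
  have hcard : ∀ a ∈ A, (C ∩ a • U).ncard = (C ∩ U).ncard := by
    intro a ha
    have e : C ∩ a • U = a • (C ∩ U) := by rw [Set.smul_set_inter, hCs ha]
    rw [e]
    exact Set.ncard_image_of_injective _ (MulAction.injective a)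
  have hsplit : ∀ U' : Set V, (C ∩ U').ncard + (C ∩ U'ᶜ).ncard = C.ncard := by
    intro U'
    rw [← Set.ncard_union_eq ?_ (hCf.inter_of_left _) (hCf.inter_of_left _),
      ← Set.inter_union_distrib_left, Set.union_compl_self, Set.inter_univ]
    exact Set.disjoint_left.2 fun x hx hx' => hx'.2 hx.2
  -- two translates of `U` cover `C`
  obtain ⟨a, ha, b, hb, hab⟩ : ∃ a ∈ A, ∃ b ∈ A, ∀ x, x ∉ a • U → x ∉ b • U → False := by
    by_contra hcon
    push Not at hcon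
    obtain ⟨v, hv, hvU⟩ := helly_finset hG.med (fun a : G => (a • U)ᶜ)
      (fun a => ((hU.smul hG a).compl hG.med).cv hG.med) hA.toFinset (fun i hi j hj => by
        rw [Set.Finite.mem_toFinset] at hi hj
        obtain ⟨x, x1, x2⟩ := hcon i hi j hj
        exact ⟨x, x1, x2.1⟩) C hCc hCne (fun i hi => by
        rw [Set.Finite.mem_toFinset] at hi
        obtain ⟨x, x1, x2⟩ := hU2
        refine ⟨i • x, hCi i hi x x1, fun h => x2 ?_⟩
        rwa [Set.smul_mem_smul_set_iff] at h)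
    have hvU' : ∀ a ∈ A, v ∉ a • U := fun a ha => hvU a (hA.mem_toFinset.2 ha)
    refine hmin {x | x ∈ C ∧ ∀ a ∈ A, x ∉ a • U} ⟨fun x hx => hx.1, fun hle => ?_⟩ ⟨v, hv, hvU'⟩
      ?_ ?_
    · obtain ⟨x, x1, x2⟩ := hU1
      refine (hle x1).2 1 A.one_mem ?_
      rwa [one_smul]
    · intro x hx y hy m hm
      refine ⟨hCc x hx.1 y hy.1 m hm, fun a ha => ?_⟩
      exact ((hU.smul hG a).compl hG.med).cv hG.med x (hx.2 a ha) y (hy.2 a ha) m hm
    · intro a ha x hx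
      refine ⟨hCi a ha x hx.1, fun b hb hxb => hx.2 (a⁻¹ * b) (A.mul_mem (A.inv_mem ha) hb) ?_⟩
      rw [mul_smul, Set.mem_inv_smul_set_iff]
      exact hxb
  have haU : (C ∩ (a • U)ᶜ).Nonempty := by
    obtain ⟨x, x1, x2⟩ := hU2
    refine ⟨a • x, hCi a ha x x1, fun h => x2 ?_⟩
    rwa [Set.smul_mem_smul_set_iff] at h
  have haU' : (C ∩ a • U).Nonempty := by
    obtain ⟨x, x1, x2⟩ := hU1
    exact ⟨a • x, hCi a ha x x1, Set.smul_mem_smul_set x2⟩
  have h1 : (C ∩ (a • U)ᶜ).ncard ≤ (C ∩ b • U).ncard := by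
    refine Set.ncard_le_ncard (fun x hx => ⟨hx.1, ?_⟩) (hCf.inter_of_left _)
    by_contra hxb
    exact hab x hx.2 hxb
  have h2 := hsplit (a • U)
  have h3 := hcard a ha
  have h4 := hcard b hb
  have hall : ∀ U', Half Γ U' → (C ∩ U').Nonempty → (C ∩ U'ᶜ).Nonempty →
      (C ∩ U').ncard = (C ∩ U).ncard := by
    intro U' g1 g2 g3
    have e1 := hUmin U' g1 g2 g3
    have e2 := hUmin U'ᶜ (g1.compl hG.med) g3 (by rwa [compl_compl])
    have e3 := hsplit U'
    omega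
  have h5 : C ∩ P = C ∩ Q := Set.eq_of_subset_of_ncard_le hPQ
    (by rw [hall P hP hP1 hP2, hall Q hQ hQ1 hQ2]) (hCf.inter_of_left _)
  obtain ⟨x, x1, x2⟩ := hP1
  obtain ⟨y, y1, y2⟩ := hP2
  obtain ⟨u, hu, v, hv, uv, huP, hvP⟩ := exists_edge hG.med hCc x1 x2 y1 y2
  have huQ : u ∈ C ∩ Q := by
    rw [← h5]
    exact ⟨hu, huP⟩
  have hvQ : v ∉ Q := fun h => by
    have : v ∈ C ∩ P := by
      rw [h5]
      exact ⟨hv, h⟩
    exact hvP this.2
  rw [half_edge hG.med hP uv huP hvP, half_edge hG.med hQ uv huQ.2 hvQ]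

/-- A finite group moves some vertex by a bounded amount. -/
theorem finite_subgroup (hG : Geo Γ G B) : ∃ E : Set G, E.Finite ∧ ∀ A : Subgroup G,
    (A : Set G).Finite → ∃ γ : G, ∀ a ∈ A, γ * a * γ⁻¹ ∈ E := by
  classical
  obtain ⟨D, hD⟩ := hG.degree
  refine ⟨_, hG.move D, fun A hA => ?_⟩
  obtain ⟨C, hCf, hCne, hCc, hCi, hbal⟩ := balanced hG A hA
  obtain ⟨p, hp⟩ := hCne
  have hball : ∀ v ∈ C, Γ.dist p v ≤ D := by
    intro v hv
    obtain ⟨u, -, -, -, hadj, hpu, hvu, hinj⟩ := geod_sides hG.med p v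
    -- the neighbours of `p`
    have hnb : ∀ i < Γ.dist p v, ∃ q, Γ.Adj p q ∧ (side Γ (u (i + 1)) (u i))ᶜ = side Γ p q := by
      intro i hi
      obtain ⟨W, hW⟩ : ∃ W, W = side Γ (u (i + 1)) (u i) := ⟨_, rfl⟩
      have hWh : Half Γ W := ⟨_, _, (hadj i hi).symm, hW⟩
      have hpW : p ∉ W := by rw [hW]; exact hpu i hi
      have hvW : v ∈ W := by rw [hW]; exact hvu i hi
      rw [← hW]
      obtain ⟨q, hq⟩ := exists_gate hG.med (hCc.inter (hWh.cv hG.med)) ⟨v, hv, hvW⟩ p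
      have hpq : Γ.dist p q ≠ 0 := fun h0 => by
        rw [hG.med.1.dist_eq_zero_iff] at h0
        exact hpW (h0 ▸ hq.1.2)
      obtain ⟨k, hk⟩ := Nat.exists_eq_succ_of_ne_zero hpq
      obtain ⟨q1, h1, h2⟩ := exists_nb hG.med hk
      have hq1C : q1 ∈ C := hCc p hp q hq.1.1 q1 (by rw [d1 h1, h2, hk]; omega)
      have hq1W : q1 ∈ W := by
        -- the half-space of the edge `q1 p` contains `C ∩ W`
        have h3 : Half Γ (side Γ q1 p) := ⟨_, _, h1.symm, rfl⟩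
        have h4 : W = side Γ q1 p := by
          refine hbal W _ hWh h3 ⟨v, hv, hvW⟩ ⟨p, hp, hpW⟩ ⟨q1, hq1C, left_mem h1.symm⟩
            ⟨p, hp, right_nmem h1.symm⟩ fun w hw => ⟨hw.1, ?_⟩
          have h5 := hq.2 w hw
          have h6 := hG.med.1.dist_triangle (u := q1) (v := q) (w := w)
          show Γ.dist w q1 < Γ.dist w p
          rw [SimpleGraph.dist_comm, SimpleGraph.dist_comm (u := w) (v := p)]
          omega
        rw [h4]
        exact left_mem h1.symm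
      exact ⟨q1, h1, half_edge hG.med (hWh.compl hG.med) h1 hpW fun h => h hq1W⟩
    have hnb' : ∀ i, ∃ q, i < Γ.dist p v →
        Γ.Adj p q ∧ (side Γ (u (i + 1)) (u i))ᶜ = side Γ p q := fun i => by
      by_cases hi : i < Γ.dist p v
      · obtain ⟨q, hq⟩ := hnb i hi
        exact ⟨q, fun _ => hq⟩
      · exact ⟨p, fun h => absurd h hi⟩
    choose q hq using hnb'
    have h1 := hD p ((Finset.range (Γ.dist p v)).image q) (fun w hw => by
      rw [Finset.mem_image] at hw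
      obtain ⟨i, hi, rfl⟩ := hw
      exact (hq i (Finset.mem_range.1 hi)).1)
    rwa [Finset.card_image_of_injOn, Finset.card_range] at h1
    intro i hi j hj hij
    rw [Finset.mem_coe, Finset.mem_range] at hi hj
    refine hinj i hi j hj (compl_injective ?_)
    show (side Γ (u (i + 1)) (u i))ᶜ = (side Γ (u (j + 1)) (u j))ᶜ
    rw [(hq i hi).2, (hq j hj).2, show q i = q j from hij]
  obtain ⟨γ, hγ⟩ := hG.cov p
  refine ⟨γ, fun a ha => ⟨γ • p, hγ, ?_⟩⟩
  rw [mul_smul, inv_smul_smul, mul_smul, hG.dist]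
  exact hball _ (hCi a ha p hp)

end Pool.Agent.H6.CM
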