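import Pool.Agent.H6.CM.Cofin

/-!
# An element which skewers half-spaces in two directions gives `ℤ²`
-/

set_option autoImplicit false

namespace Pool.Agent.H6.CM

open Set
open scoped Pointwise

variable {V : Type*} {Γ : SimpleGraph V} {G : Type*} [Group G] [MulAction G V] {B : Set V}
variable {K : Subgroup G} {F : Set V}

theorem z2_of_comm {g z : G} (hc : Commute g z) (hinj : ∀ a b : ℤ, g ^ a * z ^ b = 1 → a = 0 ∧ b = 0) :
    ∃ φ : Multiplicative (ℤ × ℤ) →* G, Function.Injective φ := by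
  let φ : Multiplicative (ℤ × ℤ) →* G :=
    { toFun := fun m => g ^ m.toAdd.1 * z ^ m.toAdd.2
      map_one' := by simp
      map_mul' := fun m n => by
        simp only [toAdd_mul, Prod.fst_add, Prod.snd_add, zpow_add]
        have h1 : g ^ n.toAdd.1 * z ^ m.toAdd.2 = z ^ m.toAdd.2 * g ^ n.toAdd.1 :=
          (hc.zpow_zpow _ _)
        rw [mul_assoc, mul_assoc, ← mul_assoc (g ^ n.toAdd.1), h1, mul_assoc] }
  refine ⟨φ, (injective_iff_map_eq_one φ).2 fun m hm => ?_⟩
  obtain ⟨ha, hb⟩ := hinj _ _ hm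
  exact Multiplicative.toAdd.injective (Prod.ext ha hb)

theorem zpow_fix {g : G} {W X : Set V} {i : ℤ} (h : g ^ i • X = X) (n : ℕ) :
    g ^ (i * n) • X = X := by
  rw [zpow_mul, zpow_natCast]
  induction n with
  | zero => simp
  | succ n ih => rw [pow_succ, mul_smul, h, ih]

/-- A skewered half-space disjoint from `F` shows that no power of `g` preserves `F`. -/
theorem no_fix (hG : Geo Γ G B) (hne : F.Nonempty) {g : G} {W : Set V} (hW : Half Γ W)
    (hgW : g • W ⊂ W) (hFW : ∀ x ∈ F, x ∉ W) {i : ℤ} (hi : g ^ i • F = F) : i = 0 := by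
  have key : ∀ i : ℤ, 0 < i → g ^ i • F = F → False := by
    intro i hpos hi
    obtain ⟨v, hv⟩ := hne
    obtain ⟨n, hn⟩ := skew_in hG hW hgW v
    have h1 := hn (i * n) (by nlinarith)
    rw [Set.mem_smul_set_iff_inv_smul_mem, ← zpow_neg, neg_neg] at h1
    refine hFW _ ?_ h1
    have h2 := Set.smul_mem_smul_set (a := g ^ (i * (n : ℤ))) hv
    rwa [zpow_fix (W := W) hi n] at h2
  rcases lt_trichotomy i 0 with h1 | h1 | h1
  · exfalso
    refine key (-i) (by omega) ?_
    rw [zpow_neg]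
    nth_rewrite 1 [← hi]
    rw [inv_smul_smul]
  · exact h1
  · exact (key i h1 hi).elim

/-- The subgroup `K` contains `u`, which generates `ℤ²` together with an element `g` of `H` which
skewers a half-space contained in `W₀`. -/
def Flat (Γ : SimpleGraph V) (H K : Subgroup G) (W₀ : Set V) : Prop :=
  ∃ g ∈ H, ∃ u ∈ K, Commute g u ∧ (∀ a b : ℤ, g ^ a * u ^ b = 1 → a = 0 ∧ b = 0) ∧
    ∃ W : Set V, Half Γ W ∧ g • W ⊂ W ∧ W ⊆ W₀

/-- An element which preserves `F` has a power in `K`. -/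
theorem pow_mem_of_fix (hG : Geo Γ G B) (hF : CC Γ K F) (hne : F.Nonempty) {u : G}
    (hu : u • F = F) : ∃ n : ℕ, 0 < n ∧ u ^ n ∈ K := by
  obtain ⟨x0, hx0⟩ := hne
  obtain ⟨R, hR, hRs⟩ := near_fin hG hF x0 0
  have hpow : ∀ n : ℕ, u ^ n • F = F := fun n => by
    induction n with
    | zero => simp
    | succ n ih => rw [pow_succ, mul_smul, hu, ih]
  have h1 : ∀ n : ℕ, ∃ s ∈ R, ∃ κ ∈ K, u ^ n = s * κ := fun n =>
    hRs _ ⟨x0, by rw [hpow n]; exact hx0, by simp⟩
  choose s hs κ hκ he using h1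
  have hninj : ¬ Function.Injective s := fun hinj =>
    Set.infinite_range_of_injective hinj (hR.subset (by
      rintro _ ⟨j, rfl⟩
      exact hs j))
  have key : ∀ i j : ℕ, i < j → s i = s j → ∃ n : ℕ, 0 < n ∧ u ^ n ∈ K := by
    intro i j hij hsij
    refine ⟨j - i, by omega, ?_⟩
    have h2 : u ^ (j - i) = (κ i)⁻¹ * κ j := by
      have h3 : u ^ i * u ^ (j - i) = u ^ j := by rw [← pow_add]; congr 1; omega
      rw [he i, he j, ← hsij, mul_assoc, mul_right_inj] at h3
      rw [← h3, inv_mul_cancel_left]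
    rw [h2]
    exact K.mul_mem (K.inv_mem (hκ i)) (hκ j)
  unfold Function.Injective at hninj
  push Not at hninj
  obtain ⟨i, j, hsij, hne⟩ := hninj
  rcases lt_or_gt_of_ne hne with h | h
  · exact key i j h hsij
  · exact key j i h hsij.symm

/-- **Elements which skewer half-spaces in two directions.** -/
theorem z2_of_skew (hG : Geo Γ G B) (hF : CC Γ K F) (hne : F.Nonempty) {H : Subgroup G} {g : G}
    (hgH : g ∈ H) (hg : g ∈ cst hG F) {A W : Set V} (hA : Half Γ A)
    (hcr : ∀ i : ℤ, (∃ x ∈ g ^ i • F, x ∈ A) ∧ ∃ x ∈ g ^ i • F, x ∉ A) (hgA : g • A ⊂ A)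
    (hW : Half Γ W) (hgW : g • W ⊂ W) (hFW : ∀ x ∈ F, x ∉ W) : Flat Γ H K W := by
  classical
  obtain ⟨x0, hx0⟩ := id hne
  have hfix := fun {i : ℤ} => no_fix hG hne hW hgW hFW (i := i)
  -- gates
  have hgate : ∀ j : ℤ, ∃ p, IsGate Γ (g ^ j • F) x0 p := fun j =>
    exists_gate hG.med (hF.cv.smul hG _) (hne.smul_set) x0
  choose p hp using hgate
  obtain ⟨c, hc⟩ : ∃ c : ℕ, ∀ j : ℤ, Γ.dist (p j) (g • p j) ≤ c := by
    obtain ⟨c, c1, c2⟩ := hg
    refine ⟨c + c + c + Γ.dist (g • x0) x0, fun j => ?_⟩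
    have e : g ^ (j + 1) • F = g ^ j • g • F := by rw [zpow_add, zpow_one, mul_smul]
    have e' : g ^ (j + 1) • F = g • g ^ j • F := by rw [add_comm, zpow_add, zpow_one, mul_smul]
    obtain ⟨q, hq, hqd⟩ : ∃ q ∈ g ^ (j + 1) • F, Γ.dist (p j) q ≤ c := by
      obtain ⟨w, hw, hpw⟩ := Set.mem_smul_set.1 (hp j).1
      obtain ⟨y, hy, hd⟩ := c1 w hw
      refine ⟨g ^ j • y, ?_, ?_⟩
      · rw [e]
        exact Set.smul_mem_smul_set hy
      · rw [← hpw, hG.dist]
        exact hd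
    obtain ⟨q', hq', hqd'⟩ : ∃ q' ∈ g ^ j • F, Γ.dist (p (j + 1)) q' ≤ c := by
      have h1 := (hp (j + 1)).1
      rw [e] at h1
      obtain ⟨w, hw, hpw⟩ := Set.mem_smul_set.1 h1
      obtain ⟨y, hy, hd⟩ := c2 w hw
      refine ⟨g ^ j • y, Set.smul_mem_smul_set hy, ?_⟩
      rw [← hpw, hG.dist, SimpleGraph.dist_comm]
      exact hd
    have g1 := (hp j).2 q' hq'
    have g2 := (hp (j + 1)).2 q hq
    have g3 := hG.med.1.dist_triangle (u := x0) (v := p (j + 1)) (w := q')
    have g4 := hG.med.1.dist_triangle (u := x0) (v := p j) (w := q)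
    have g5 := hG.med.1.dist_triangle (u := p j) (v := q') (w := p (j + 1))
    have g6 : Γ.dist q' (p (j + 1)) = Γ.dist (p (j + 1)) q' := SimpleGraph.dist_comm
    have g7 := gate_smul hG g (hp j)
    rw [← e'] at g7
    have g8 := gate_lip hG.med (hp (j + 1)) g7
    have g9 := hG.med.1.dist_triangle (u := p j) (v := p (j + 1)) (w := g • p j)
    have g10 : Γ.dist x0 (g • x0) = Γ.dist (g • x0) x0 := SimpleGraph.dist_comm
    omega
  -- the pigeonhole principle
  choose γ hγ using fun v : V => hG.cov v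
  have hN : {X : Set V | ∃ u : G, X = u • F ∧ ∃ v ∈ B, v ∈ X}.Finite := by
    choose R hR1 hR2 using fun v : V => near_fin hG hF v 0
    refine (hG.fin.biUnion fun v _ => (hR1 v).image fun s => s • F).subset ?_
    rintro _ ⟨u, rfl, v, hv, hvu⟩
    obtain ⟨s, hs, κ, hκ, he⟩ := hR2 v u ⟨v, hvu, by simp⟩
    refine Set.mem_biUnion hv ⟨s, hs, ?_⟩
    show s • F = u • F
    rw [he, mul_smul, hF.smul_eq hκ]
  have hfin := (hG.fin.prod ((hG.move c).prod hN))
  let D : ℕ → V × G × Set V := fun j =>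
    (γ (p j) • p j, γ (p j) * g * (γ (p j))⁻¹, γ (p j) • g ^ (j : ℤ) • F)
  have hD : ∀ j, D j ∈ B ×ˢ {u : G | ∃ v ∈ B, Γ.dist v (u • v) ≤ c} ×ˢ
      {X : Set V | ∃ u : G, X = u • F ∧ ∃ v ∈ B, v ∈ X} := by
    intro j
    refine ⟨hγ _, ⟨_, hγ (p j), ?_⟩, γ (p j) * g ^ (j : ℤ), (mul_smul _ _ _).symm, _, hγ (p j),
      Set.smul_mem_smul_set (hp j).1⟩
    show Γ.dist (γ (p j) • p j) ((γ (p j) * g * (γ (p j))⁻¹) • γ (p j) • p j) ≤ c
    rw [mul_smul, inv_smul_smul, mul_smul, hG.dist]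
    exact hc j
  have hninj : ¬ Function.Injective D := fun hinj =>
    Set.infinite_range_of_injective hinj (hfin.subset (by
      rintro _ ⟨j, rfl⟩
      exact hD j))
  obtain ⟨i, j, hij, he⟩ : ∃ i j : ℕ, i < j ∧ D i = D j := by
    unfold Function.Injective at hninj
    push Not at hninj
    obtain ⟨i, j, he, hne⟩ := hninj
    rcases lt_or_gt_of_ne hne with h | h
    · exact ⟨i, j, h, he⟩
    · exact ⟨j, i, h, he.symm⟩
  simp only [D, Prod.mk.injEq] at he
  obtain ⟨he1, he2, he3⟩ := he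
  set a := γ (p i) with ha
  set b := γ (p j) with hb
  obtain ⟨z, hz⟩ : ∃ z : G, z = b⁻¹ * a := ⟨_, rfl⟩
  have z1 : z • p i = p j := by rw [hz, mul_smul, he1, inv_smul_smul]
  have z2 : z * g = g * z := by
    have h1 : a * g * a⁻¹ * a = b * g * b⁻¹ * a := by rw [he2]
    rw [inv_mul_cancel_right] at h1
    rw [hz, mul_assoc, h1]
    group
  have z3 : z • g ^ (i : ℤ) • F = g ^ (j : ℤ) • F := by rw [hz, mul_smul, he3, inv_smul_smul]
  have zc : Commute z g := z2
  obtain ⟨m, hm, hmpos⟩ : ∃ m : ℤ, m = j - i ∧ 0 < m := ⟨_, rfl, by omega⟩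
  have z4 : ∀ l : ℤ, z • g ^ l • F = g ^ (l + m) • F := by
    intro l
    have h1 : z • g ^ l • F = g ^ (l - i) • z • g ^ (i : ℤ) • F := by
      rw [← mul_smul, ← mul_smul, ← mul_smul, ← (zc.zpow_right (l - i)).eq, mul_assoc, ← zpow_add]
      congr 3
      ring
    rw [h1, z3, ← mul_smul, ← zpow_add]
    congr 2
    omega
  have z5 : ∀ (n : ℕ) (l : ℤ), z ^ n • g ^ l • F = g ^ (l + m * n) • F := by
    intro n
    induction n with
    | zero => intro l; simp
    | succ n ih =>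
      intro l
      rw [pow_succ, mul_smul, z4, ih]
      congr 2
      push_cast
      ring
  have z5' : ∀ (n : ℕ) (l : ℤ), (z ^ n)⁻¹ • g ^ l • F = g ^ (l - m * n) • F := by
    intro n l
    have := z5 n (l - m * n)
    rw [show l - m * n + m * n = l by ring] at this
    rw [← this, inv_smul_smul]
  -- sides
  have hs : ∀ A' : Set V, Half Γ A' →
      (∀ l : ℤ, (∃ x ∈ g ^ l • F, x ∈ A') ∧ ∃ x ∈ g ^ l • F, x ∉ A') →
      (z • p i ∈ A' ↔ p i ∈ A') := by
    intro A' hA' hcr'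
    rw [z1, ← gate_side hG.med hA' (hp j) (hcr' j).1 (hcr' j).2,
      ← gate_side hG.med hA' (hp i) (hcr' i).1 (hcr' i).2]
  have hs' : ∀ (n : ℕ) (A' : Set V), Half Γ A' →
      (∀ l : ℤ, (∃ x ∈ g ^ l • F, x ∈ A') ∧ ∃ x ∈ g ^ l • F, x ∉ A') →
      (z ^ n • p i ∈ A' ↔ p i ∈ A') := by
    intro n
    induction n with
    | zero => intro A' _ _; simp
    | succ n ih =>
      intro A' hA' hcr'
      rw [pow_succ, mul_smul, ← ih A' hA' hcr']
      have h1 := hs ((z ^ n)⁻¹ • A') (hA'.smul hG _) (fun l => by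
        obtain ⟨⟨x, hx, hx'⟩, y, hy, hy'⟩ := hcr' (l + m * n)
        have e : (z ^ n)⁻¹ • g ^ (l + m * n) • F = g ^ l • F := by
          rw [z5']
          congr 2
          ring
        refine ⟨⟨(z ^ n)⁻¹ • x, ?_, Set.smul_mem_smul_set hx'⟩, (z ^ n)⁻¹ • y, ?_, ?_⟩
        · rw [← e]
          exact Set.smul_mem_smul_set hx
        · rw [← e]
          exact Set.smul_mem_smul_set hy
        · rwa [Set.smul_mem_smul_set_iff])
      rwa [Set.mem_smul_set_iff_inv_smul_mem, inv_inv, Set.mem_smul_set_iff_inv_smul_mem,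
        inv_inv] at h1
  -- no positive power of `z` is the corresponding power of `g`
  have hfin : ∀ n : ℕ, 0 < n → z ^ n = g ^ (m * n) → False := by
    intro n hn hzn
    obtain ⟨l, hl, hl'⟩ : ∃ l : ℤ, p i ∈ g ^ l • A ∧ p i ∉ g ^ (l + 1) • A := by
      obtain ⟨n1, h1⟩ := skew_in hG hA hgA (p i)
      obtain ⟨n2, h2⟩ := skew_out hG hA hgA (p i)
      obtain ⟨l, hl, hmax⟩ := Int.exists_greatest_of_bdd (P := fun l => p i ∈ g ^ l • A)
        ⟨n2, fun l hl => by
          by_contra hlt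
          exact h2 l (by omega) hl⟩ ⟨-n1, h1 n1 le_rfl⟩
      exact ⟨l, hl, fun h3 => by
        have := hmax _ h3
        omega⟩
    refine hl' ((hs' n (g ^ (l + 1) • A) (hA.smul hG _) fun l' => ?_).1 ?_)
    · obtain ⟨⟨x, hx, hx'⟩, y, hy, hy'⟩ := hcr (l' - (l + 1))
      have e : g ^ (l + 1) • g ^ (l' - (l + 1)) • F = g ^ l' • F := by
        rw [← mul_smul, ← zpow_add]
        congr 2
        ring
      refine ⟨⟨g ^ (l + 1) • x, ?_, Set.smul_mem_smul_set hx'⟩, g ^ (l + 1) • y, ?_, ?_⟩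
      · rw [← e]
        exact Set.smul_mem_smul_set hx
      · rw [← e]
        exact Set.smul_mem_smul_set hy
      · rwa [Set.smul_mem_smul_set_iff]
    · rw [hzn]
      have h1 := Set.smul_mem_smul_set (a := g ^ (m * (n : ℤ))) hl
      rw [← mul_smul, ← zpow_add] at h1
      refine skew_le hgA ?_ h1
      have : (1 : ℤ) ≤ m * n := by
        have : (1 : ℤ) ≤ n := by exact_mod_cast hn
        nlinarith
      omega
  have hinj : ∀ a' b' : ℤ, g ^ a' * z ^ b' = 1 → a' = 0 ∧ b' = 0 := by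
    intro a' b' hab
    have hb0 : b' = 0 := by
      by_contra hb0
      -- `a' + m b' = 0`
      have hzb : z ^ b' = g ^ (-a') := by
        rw [zpow_neg]
        exact eq_inv_of_mul_eq_one_right hab
      rcases lt_or_gt_of_ne hb0 with h | h
      · obtain ⟨n, hn⟩ := Int.eq_ofNat_of_zero_le (show 0 ≤ -b' by omega)
        have h1 : z ^ n = g ^ a' := by
          rw [← zpow_natCast, ← hn, zpow_neg, hzb, zpow_neg, inv_inv]
        have h2 := z5 n 0
        rw [h1, zpow_zero, one_smul, zero_add] at h2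
        have h3 : g ^ (a' - m * n) • F = F := by
          rw [sub_eq_neg_add, zpow_add, mul_smul, h2, ← mul_smul, ← zpow_add, neg_add_cancel,
            zpow_zero, one_smul]
        have h4 := hfix h3
        refine hfin n (by omega) ?_
        rw [h1]
        congr 1
        omega
      · obtain ⟨n, hn⟩ := Int.eq_ofNat_of_zero_le (show 0 ≤ b' by omega)
        have h1 : z ^ n = g ^ (-a') := by
          rw [← zpow_natCast, ← hn, hzb]
        have h2 := z5 n 0
        rw [h1, zpow_zero, one_smul, zero_add] at h2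
        have h3 : g ^ (-a' - m * n) • F = F := by
          rw [sub_eq_neg_add, zpow_add, mul_smul, h2, ← mul_smul, ← zpow_add, neg_add_cancel,
            zpow_zero, one_smul]
        have h4 := hfix h3
        refine hfin n (by omega) ?_
        rw [h1]
        congr 1
        omega
    refine ⟨?_, hb0⟩
    rw [hb0, zpow_zero, mul_one] at hab
    exact hfix (by rw [hab, one_smul])
  -- the element which preserves `F`
  have z6 : (z * g ^ (-m)) • F = F := by
    have h1 := z4 (-m)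
    rw [neg_add_cancel, zpow_zero, one_smul] at h1
    rw [mul_smul]
    exact h1
  obtain ⟨n, hn, hnK⟩ := pow_mem_of_fix hG hF hne z6
  have zc' : Commute z (g ^ (-m)) := zc.zpow_right (-m)
  have hgu : Commute g (z * g ^ (-m)) := zc.symm.mul_right (Commute.zpow_right (Commute.refl g) _)
  refine ⟨g, hgH, (z * g ^ (-m)) ^ n, hnK, hgu.pow_right n, fun a' b' hab => ?_, W, hW, hgW,
    subset_rfl⟩
  have h1 : ((z * g ^ (-m)) ^ n) ^ b' = z ^ ((n : ℤ) * b') * g ^ (-m * (n * b')) := by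
    rw [← zpow_natCast, ← zpow_mul, zc'.mul_zpow, ← zpow_mul]
  have h2 : g ^ (a' + -m * (n * b')) * z ^ ((n : ℤ) * b') = 1 := by
    rw [zpow_add, mul_assoc, ← (zc.zpow_zpow _ _).eq, ← h1, hab]
  obtain ⟨h3, h4⟩ := hinj _ _ h2
  have hn' : (n : ℤ) ≠ 0 := by exact_mod_cast hn.ne'
  have hb : b' = 0 := by
    rcases mul_eq_zero.1 h4 with h | h
    · exact absurd h hn'
    · exact h
  refine ⟨?_, hb⟩
  rw [hb] at h3
  simpa using h3

end Pool.Agent.H6.CM
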